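import Mathlib
import Pool.Agent.H524R3.ExpDefs

/-!
# SU(N) quantum invariants of graph manifolds
-/

set_option autoImplicit false

open Finset

namespace W719AEC

/-- The labels of the level r - N theory of SU(N), i.e. the dominant integral weights λ = (λ_1 ≥ ... ≥ λ_N = 0)
of SU(N) with λ_1 ≤ r - N. The weight λ is encoded by the strictly increasing sequence a_i = λ_(N-i) + i
(i = 0, ..., N-1), so that a_0 = 0 and a_(N-1) < r. (In orthogonal coordinates the weight λ + ρ has the
entries a_i - (∑ a) / N.) -/
def labels (N r : ℕ) : Finset (Fin N → ℕ) :=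
  (Fintype.piFinset fun _ : Fin N => range r).filter fun a =>
    (∀ i j : Fin N, i < j → a i < a j) ∧ ∀ i : Fin N, (i : ℕ) = 0 → a i = 0

/-- The label of the trivial representation, λ = 0. -/
def triv (N : ℕ) : Fin N → ℕ := fun i => i

/-- The S-matrix of SU(N) at level r - N (Kac-Peterson formula)
S_{λμ} = i^(N(N-1)/2) N^(-1/2) r^(-(N-1)/2) ∑_{w ∈ S_N} sgn(w) exp (-2 π i ⟨w(λ+ρ), μ+ρ⟩ / r),
where ⟨w(λ+ρ), μ+ρ⟩ = ∑ a_(w i) b_i - (∑ a)(∑ b) / N. -/
noncomputable def Smat (N r : ℕ) (a b : Fin N → ℕ) : ℂ :=
  Complex.I ^ (N * (N - 1) / 2) / ((Real.sqrt N * Real.sqrt r ^ (N - 1) : ℝ) : ℂ) *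
    Complex.exp (2 * Real.pi * Complex.I * ((∑ i, (a i : ℂ)) * (∑ i, (b i : ℂ)) / (N * r))) *
    Matrix.det (Matrix.of fun i j : Fin N =>
      Complex.exp (-(2 * Real.pi * Complex.I * ((a i : ℂ) * (b j : ℂ) / r))))

/-- The twist θ_λ = exp (π i ⟨λ, λ + 2ρ⟩ / r) = exp (π i (|λ + ρ|^2 - |ρ|^2) / r), where
|λ + ρ|^2 = ∑ a_i^2 - (∑ a)^2 / N and |ρ|^2 = N (N^2 - 1) / 12. -/
noncomputable def twist (N r : ℕ) (a : Fin N → ℕ) : ℂ :=
  Complex.exp (Real.pi * Complex.I *
    ((∑ i, (a i : ℂ) ^ 2) - (∑ i, (a i : ℂ)) ^ 2 / N - N * ((N : ℂ) ^ 2 - 1) / 12) / r)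

/-- A decorated plumbing graph with n vertices and m edges: every vertex v carries a genus and an Euler
number, every edge e joins the vertices src e and tgt e and carries a sign. It describes the following
closed oriented graph manifold: for every vertex v take the circle bundle with Euler number euler v over
the closed oriented surface of genus genus v, and remove the part over one open disc for every end of an
edge at v; for every edge glue the two corresponding boundary tori by exchanging the fibre and the boundary
of the base (by the matrix (0 1; 1 0) for a positive edge, and minus this matrix for a negative edge). -/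
structure PlumbingGraph (n m : ℕ) where
  genus : Fin n → ℕ
  euler : Fin n → ℤ
  src : Fin m → Fin n
  tgt : Fin m → Fin n
  positive : Fin m → Bool

namespace PlumbingGraph

variable {n m : ℕ} (Γ : PlumbingGraph n m)

/-- The number of ends of edges at the vertex v. -/
def degree (v : Fin n) : ℕ :=
  (univ.filter fun e : Fin m => Γ.src e = v).card + (univ.filter fun e : Fin m => Γ.tgt e = v).card

/-- The level r - N quantum SU(N) invariant (Witten's normalisation: 1 on S^1 x S^2 and S_{00} on S^3) of
the closed oriented 3-manifold of the plumbing graph Γ, up to a factor of absolute value 1 that depends on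
the 2-framing: the state sum over all colourings x of the vertices by labels of
∏_v θ_(x v)^(euler v) S_{0,x v}^(2 - 2 genus v - degree v) times ∏_e S_{x (src e), x (tgt e)}, where for a
negative edge the entry S_{λμ} is replaced by its complex conjugate S_{λμ*}. -/
noncomputable def Z (N r : ℕ) : ℂ :=
  ∑ x ∈ Fintype.piFinset (fun _ : Fin n => labels N r),
    (∏ v, twist N r (x v) ^ Γ.euler v *
      Smat N r (triv N) (x v) ^ (2 - 2 * (Γ.genus v : ℤ) - (Γ.degree v : ℤ))) *
    ∏ e, (if Γ.positive e then Smat N r (x (Γ.src e)) (x (Γ.tgt e))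
      else (starRingEnd ℂ) (Smat N r (x (Γ.src e)) (x (Γ.tgt e))))

end PlumbingGraph

/-- The plumbing graph with two vertices of genus 1 and Euler number 0 and two edges of opposite signs
joining them. Its closed oriented 3-manifold is the union of two copies of F x S^1, F the torus with two
open discs removed, glued along both boundary tori by exchanging the fibre and the boundary of the base. -/
def doubleEdge : PlumbingGraph 2 2 where
  genus := ![1, 1]
  euler := ![0, 0]
  src := ![0, 0]
  tgt := ![1, 1]
  positive := ![true, false]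

end W719AEC
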