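import Mathlib

/-!
# Alternants: det (z_j ^ b_i) and its branching recursion
-/

set_option autoImplicit false

open Finset

namespace W719AEC

/-- The product of the differences. -/
def vd {R : Type*} [CommRing R] {n : ℕ} (v : Fin n → R) : R := ∏ i : Fin n, ∏ j ∈ Ioi i, (v j - v i)

theorem vd_eq_det {R : Type*} [CommRing R] {n : ℕ} (v : Fin n → R) :
    vd v = Matrix.det (Matrix.vandermonde v) := (Matrix.det_vandermonde v).symm

theorem vd_succ {R : Type*} [CommRing R] {n : ℕ} (v : Fin (n + 1) → R) :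
    vd v = (∏ j : Fin n, (v j.succ - v 0)) * vd (fun j => v j.succ) := by
  unfold vd
  rw [Fin.prod_univ_succ, Fin.prod_Ioi_zero]
  congr 1
  refine Finset.prod_congr rfl fun i _ => ?_
  rw [Fin.prod_Ioi_succ]

/-- The alternant det (z_j ^ b_i). -/
noncomputable def alt {n : ℕ} (b : Fin n → ℕ) (z : Fin n → ℂ) : ℂ :=
  Matrix.det (Matrix.of fun i j : Fin n => z j ^ b i)

/-- The interlacing sequences. -/
def inter {n : ℕ} (b : Fin (n + 1) → ℕ) : Finset (Fin n → ℕ) :=
  Fintype.piFinset fun i : Fin n => Ico (b i.castSucc) (b i.succ)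

theorem mem_inter {n : ℕ} (b : Fin (n + 1) → ℕ) (c : Fin n → ℕ) :
    c ∈ inter b ↔ ∀ i : Fin n, b i.castSucc ≤ c i ∧ c i < b i.succ := by
  unfold inter
  rw [Fintype.mem_piFinset]
  simp only [mem_Ico]

theorem geom_diff (x y : ℂ) (p q : ℕ) (h : p ≤ q) :
    x ^ q - y ^ (q - p) * x ^ p = (x - y) * ∑ c ∈ Ico p q, x ^ c * y ^ (q - 1 - c) := by
  obtain ⟨m, rfl⟩ := Nat.exists_eq_add_of_le h
  rw [Finset.sum_Ico_eq_sum_range]
  have h1 : p + m - p = m := by omega
  rw [h1]
  have h2 : ∀ k ∈ range m, x ^ (p + k) * y ^ (p + m - 1 - (p + k)) = x ^ p * (x ^ k * y ^ (m - 1 - k)) := by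
    intro k _
    have : p + m - 1 - (p + k) = m - 1 - k := by omega
    rw [this, pow_add]; ring
  rw [Finset.sum_congr rfl h2, ← Finset.mul_sum]
  have h3 := (Commute.all x y).mul_geom_sum₂ m
  have : (x - y) * (x ^ p * ∑ i ∈ range m, x ^ i * y ^ (m - 1 - i)) =
      x ^ p * ((x - y) * ∑ i ∈ range m, x ^ i * y ^ (m - 1 - i)) := by ring
  rw [this, h3, pow_add]; ring

theorem alt_succ {n : ℕ} (b : Fin (n + 1) → ℕ) (z : Fin (n + 1) → ℂ)
    (hb : ∀ i : Fin n, b i.castSucc ≤ b i.succ) :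
    alt b z = (∏ j : Fin n, (z j.succ - z 0)) * (z 0 ^ b 0 *
      ∑ c ∈ inter b, (∏ i : Fin n, z 0 ^ (b i.succ - 1 - c i)) * alt c (fun j => z j.succ)) := by
  have h1 : alt b z = Matrix.det (Matrix.of fun i j : Fin (n + 1) =>
      (Fin.cases (z j ^ b 0) (fun i' : Fin n => z j ^ b i'.succ -
        z 0 ^ (b i'.succ - b i'.castSucc) * z j ^ b i'.castSucc) i : ℂ)) := by
    unfold alt
    refine Matrix.det_eq_of_forall_row_eq_smul_add_pred
      (fun i : Fin n => z 0 ^ (b i.succ - b i.castSucc)) ?_ ?_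
    · intro j; simp
    · intro i j; simp
  rw [h1, Matrix.det_succ_column_zero, Fin.sum_univ_succ]
  have h2 : ∀ i : Fin n, (-1 : ℂ) ^ ((i.succ : Fin (n + 1)) : ℕ) *
      (Matrix.of fun i j : Fin (n + 1) =>
      (Fin.cases (z j ^ b 0) (fun i' : Fin n => z j ^ b i'.succ -
        z 0 ^ (b i'.succ - b i'.castSucc) * z j ^ b i'.castSucc) i : ℂ)) i.succ 0 *
      Matrix.det ((Matrix.of fun i j : Fin (n + 1) =>
      (Fin.cases (z j ^ b 0) (fun i' : Fin n => z j ^ b i'.succ -
        z 0 ^ (b i'.succ - b i'.castSucc) * z j ^ b i'.castSucc) i : ℂ)).submatrix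
          i.succ.succAbove Fin.succ) = 0 := by
    intro i
    have : (Matrix.of fun i j : Fin (n + 1) =>
      (Fin.cases (z j ^ b 0) (fun i' : Fin n => z j ^ b i'.succ -
        z 0 ^ (b i'.succ - b i'.castSucc) * z j ^ b i'.castSucc) i : ℂ)) i.succ 0 = 0 := by
      simp only [Matrix.of_apply, Fin.cases_succ]
      rw [← pow_add, Nat.sub_add_cancel (hb i), sub_self]
    rw [this]; ring
  rw [Finset.sum_congr rfl fun i _ => h2 i, Finset.sum_const_zero, add_zero]
  have h3 : ((Matrix.of fun i j : Fin (n + 1) =>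
      (Fin.cases (z j ^ b 0) (fun i' : Fin n => z j ^ b i'.succ -
        z 0 ^ (b i'.succ - b i'.castSucc) * z j ^ b i'.castSucc) i : ℂ)).submatrix
          (Fin.succAbove 0) Fin.succ) =
      Matrix.of fun i j : Fin n => (z j.succ - z 0) *
        (Matrix.of fun i j : Fin n => ∑ c ∈ Ico (b i.castSucc) (b i.succ),
          (z 0 ^ (b i.succ - 1 - c) * z j.succ ^ c)) i j := by
    ext i j
    simp only [Matrix.submatrix_apply, Matrix.of_apply, Fin.zero_succAbove, Fin.cases_succ]
    rw [geom_diff _ _ _ _ (hb i)]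
    congr 1
    exact Finset.sum_congr rfl fun c _ => by ring
  rw [h3, Matrix.det_mul_row]
  have h4 : Matrix.det (Matrix.of fun i j : Fin n => ∑ c ∈ Ico (b i.castSucc) (b i.succ),
          (z 0 ^ (b i.succ - 1 - c) * z j.succ ^ c)) =
      ∑ c ∈ inter b, (∏ i : Fin n, z 0 ^ (b i.succ - 1 - c i)) * alt c (fun j => z j.succ) := by
    have h5 := (Matrix.detRowAlternating (R := ℂ) (n := Fin n)).toMultilinearMap.map_sum_finset
      (A := fun i : Fin n => Ico (b i.castSucc) (b i.succ))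
      (g := fun i c => fun j : Fin n => z 0 ^ (b i.succ - 1 - c) * z j.succ ^ c)
    have h6 : Matrix.det (Matrix.of fun i j : Fin n => ∑ c ∈ Ico (b i.castSucc) (b i.succ),
          (z 0 ^ (b i.succ - 1 - c) * z j.succ ^ c)) =
        (Matrix.detRowAlternating (R := ℂ) (n := Fin n)).toMultilinearMap
          (fun i => ∑ c ∈ Ico (b i.castSucc) (b i.succ),
            (fun j : Fin n => z 0 ^ (b i.succ - 1 - c) * z j.succ ^ c)) := by
      show Matrix.det _ = Matrix.det _
      congr 1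
      ext i j
      simp only [Matrix.of_apply]
      rw [Finset.sum_apply]
    rw [h6, h5]
    refine Finset.sum_congr rfl fun c _ => ?_
    show Matrix.det (Matrix.of fun i j : Fin n => z 0 ^ (b i.succ - 1 - c i) * z j.succ ^ c i) = _
    have := Matrix.det_mul_column (fun i : Fin n => z 0 ^ (b i.succ - 1 - c i))
      (Matrix.of fun i j : Fin n => z j.succ ^ c i)
    simp only [Matrix.of_apply] at this
    rw [this]
    rfl
  rw [h4]
  simp only [Fin.val_zero, pow_zero, one_mul, Matrix.of_apply, Fin.cases_zero]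
  ring

/-- The Schur polynomial (by the branching rule). -/
noncomputable def sch : (n : ℕ) → (Fin n → ℕ) → (Fin n → ℂ) → ℂ
  | 0, _, _ => 1
  | n + 1, b, z => z 0 ^ b 0 *
      ∑ c ∈ inter b, (∏ i : Fin n, z 0 ^ (b i.succ - 1 - c i)) * sch n c (fun j => z j.succ)

/-- The number of terms. -/
def dm : (n : ℕ) → (Fin n → ℕ) → ℕ
  | 0, _ => 1
  | n + 1, b => ∑ c ∈ inter b, dm n c

theorem inter_mono {n : ℕ} (b : Fin (n + 1) → ℕ) (c : Fin n → ℕ) (hc : c ∈ inter b) :
    ∀ i j : Fin n, i < j → c i < c j := by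
  rw [mem_inter] at hc
  have hmono : Monotone b := by
    refine Fin.monotone_iff_le_succ.mpr fun i => ?_
    have := hc i; omega
  intro i j hij
  have h1 := (hc i).2
  have h2 := (hc j).1
  have h3 : b i.succ ≤ b j.castSucc := by
    apply hmono
    rw [Fin.le_def]
    simp only [Fin.val_succ, Fin.val_castSucc]
    exact hij
  omega

theorem alt_eq {n : ℕ} : ∀ (b : Fin n → ℕ) (z : Fin n → ℂ), (∀ i j : Fin n, i < j → b i < b j) →
    alt b z = vd z * sch n b z := by
  induction n with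
  | zero => intro b z _; simp [alt, vd, sch]
  | succ n ih =>
    intro b z hb
    rw [alt_succ b z (fun i => (hb _ _ i.castSucc_lt_succ).le), vd_succ]
    have h1 : ∀ c ∈ inter b, (∏ i : Fin n, z 0 ^ (b i.succ - 1 - c i)) * alt c (fun j => z j.succ) =
        vd (fun j => z j.succ) * ((∏ i : Fin n, z 0 ^ (b i.succ - 1 - c i)) *
          sch n c (fun j => z j.succ)) := by
      intro c hc
      rw [ih c _ (inter_mono b c hc)]; ring
    rw [Finset.sum_congr rfl h1, ← Finset.mul_sum]
    simp only [sch]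
    ring

theorem sch_norm_le {n : ℕ} : ∀ (b : Fin n → ℕ) (z : Fin n → ℂ), (∀ i, ‖z i‖ = 1) →
    ‖sch n b z‖ ≤ dm n b := by
  induction n with
  | zero => intro b z _; simp [sch, dm]
  | succ n ih =>
    intro b z hz
    simp only [sch, dm]
    rw [norm_mul, norm_pow, hz, one_pow, one_mul]
    push_cast
    refine (norm_sum_le _ _).trans (Finset.sum_le_sum fun c _ => ?_)
    rw [norm_mul, norm_prod]
    simp only [norm_pow, hz, one_pow, Finset.prod_const_one, one_mul]
    exact ih c _ fun j => hz _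

theorem norm_pow_sub_one_le (z : ℂ) (hz : ‖z‖ = 1) (n : ℕ) : ‖z ^ n - 1‖ ≤ n * ‖z - 1‖ := by
  induction n with
  | zero => simp
  | succ n ih =>
    have h : z ^ (n + 1) - 1 = z ^ n * (z - 1) + (z ^ n - 1) := by ring
    rw [h]
    refine (norm_add_le _ _).trans ?_
    rw [norm_mul, norm_pow, hz, one_pow, one_mul]
    push_cast
    linarith

theorem sch_close {n : ℕ} : ∀ (b : Fin n → ℕ) (z : Fin n → ℂ) (δ : ℝ), (∀ i, ‖z i‖ = 1) →
    (∀ i, ‖z i - 1‖ ≤ δ) → ‖sch n b z - dm n b‖ ≤ δ * (∑ i, (b i : ℝ)) * dm n b := by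
  induction n with
  | zero => intro b z δ _ _; simp [sch, dm]
  | succ n ih =>
    intro b z δ hz hδ
    have hδ0 : 0 ≤ δ := (norm_nonneg _).trans (hδ 0)
    simp only [sch, dm]
    have h1 : z 0 ^ b 0 * ∑ c ∈ inter b, (∏ i : Fin n, z 0 ^ (b i.succ - 1 - c i)) *
        sch n c (fun j => z j.succ) - ((∑ c ∈ inter b, dm n c : ℕ) : ℂ) =
        ∑ c ∈ inter b, ((z 0 ^ (b 0 + ∑ i : Fin n, (b i.succ - 1 - c i)) - 1) *
          sch n c (fun j => z j.succ) + (sch n c (fun j => z j.succ) - dm n c)) := by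
      rw [Finset.mul_sum]
      push_cast
      rw [← Finset.sum_sub_distrib]
      refine Finset.sum_congr rfl fun c _ => ?_
      rw [Finset.prod_pow_eq_pow_sum, pow_add]
      ring
    rw [h1]
    refine (norm_sum_le _ _).trans ?_
    push_cast
    rw [Finset.mul_sum]
    refine Finset.sum_le_sum fun c hc => ?_
    rw [mem_inter] at hc
    refine (norm_add_le _ _).trans ?_
    rw [norm_mul]
    have h2 := norm_pow_sub_one_le (z 0) (hz 0) (b 0 + ∑ i : Fin n, (b i.succ - 1 - c i))
    have h3 := sch_norm_le c (fun j => z j.succ) (fun j => hz _)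
    have h4 := ih c (fun j => z j.succ) δ (fun j => hz _) (fun j => hδ _)
    have h5 : ((b 0 + ∑ i : Fin n, (b i.succ - 1 - c i) : ℕ) : ℝ) + ∑ i, (c i : ℝ) ≤
        ∑ i, (b i : ℝ) := by
      rw [Fin.sum_univ_succ]
      have : (b 0 + ∑ i : Fin n, (b i.succ - 1 - c i)) + ∑ i, c i ≤ b 0 + ∑ i : Fin n, b i.succ := by
        rw [add_assoc, ← Finset.sum_add_distrib]
        refine Nat.add_le_add_left (Finset.sum_le_sum fun i _ => ?_) _
        have := hc i; omega
      exact_mod_cast this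
    have hd : (0 : ℝ) ≤ dm n c := Nat.cast_nonneg _
    calc ‖z 0 ^ (b 0 + ∑ i : Fin n, (b i.succ - 1 - c i)) - 1‖ * ‖sch n c fun j => z j.succ‖ +
          ‖(sch n c fun j => z j.succ) - (dm n c : ℂ)‖
        ≤ (((b 0 + ∑ i : Fin n, (b i.succ - 1 - c i) : ℕ) : ℝ) * δ) * dm n c +
          δ * (∑ i, (c i : ℝ)) * dm n c := by
          refine add_le_add (mul_le_mul (h2.trans ?_) h3 (norm_nonneg _) ?_) h4
          · exact mul_le_mul_of_nonneg_left (hδ 0) (Nat.cast_nonneg _)
          · exact mul_nonneg (Nat.cast_nonneg _) hδ0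
      _ = δ * (((b 0 + ∑ i : Fin n, (b i.succ - 1 - c i) : ℕ) : ℝ) + ∑ i, (c i : ℝ)) * dm n c := by ring
      _ ≤ δ * (∑ i, (b i : ℝ)) * dm n c :=
          mul_le_mul_of_nonneg_right (mul_le_mul_of_nonneg_left h5 hδ0) hd

theorem dm_pos {n : ℕ} : ∀ (b : Fin n → ℕ), (∀ i j : Fin n, i < j → b i < b j) → 0 < dm n b := by
  induction n with
  | zero => intro b _; simp [dm]
  | succ n ih =>
    intro b hb
    simp only [dm]
    refine Finset.sum_pos (fun c hc => ih c (inter_mono b c hc)) ⟨fun i => b i.castSucc, ?_⟩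
    rw [mem_inter]
    exact fun i => ⟨le_rfl, hb _ _ i.castSucc_lt_succ⟩

/-- The product over pairs i < j of Fin (n+1), rearranged. -/
theorem vd_castSucc {n : ℕ} (v : Fin (n + 1) → ℝ) :
    vd v = ∏ i : Fin n, ((v i.succ - v i.castSucc) * ∏ j ∈ Ioi i, (v j.succ - v i.castSucc)) := by
  unfold vd
  rw [Fin.prod_univ_castSucc]
  have h1 : ∏ j ∈ Ioi (Fin.last n), (v j - v (Fin.last n)) = 1 := by
    rw [show Ioi (Fin.last n) = ∅ by ext x; simp [Fin.le_last]]
    simp
  rw [h1, mul_one]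
  refine Finset.prod_congr rfl fun i _ => ?_
  have h2 : Ioi i.castSucc = insert i.succ ((Ioi i).map (Fin.succEmb n)) := by
    ext x
    simp only [mem_Ioi, mem_insert, mem_map]
    constructor
    · intro hx
      have hx0 : x ≠ 0 := by
        rintro rfl
        simp [Fin.lt_def] at hx
      obtain ⟨y, rfl⟩ := Fin.exists_succ_eq.mpr hx0
      by_cases hy : y = i
      · left; rw [hy]
      · right
        refine ⟨y, ?_, rfl⟩
        rw [Fin.lt_def] at hx ⊢
        simp only [Fin.val_castSucc, Fin.val_succ] at hx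
        have : (y : ℕ) ≠ i := fun h => hy (Fin.ext h)
        omega
    · rintro (rfl | ⟨y, hy, rfl⟩)
      · exact i.castSucc_lt_succ
      · rw [Fin.lt_def] at hy ⊢
        show (i : ℕ) < (y.succ : Fin (n+1))
        rw [Fin.val_succ]; omega
  rw [h2, Finset.prod_insert, Finset.prod_map]
  · rfl
  · simp

theorem dm_le {n : ℕ} : ∀ (b : Fin n → ℕ), (∀ i j : Fin n, i < j → b i < b j) →
    (dm n b : ℝ) ≤ vd (fun i => (b i : ℝ)) := by
  induction n with
  | zero => intro b _; simp [dm, vd]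
  | succ n ih =>
    intro b hb
    simp only [dm]
    push_cast
    have h1 : ∀ c ∈ inter b, (dm n c : ℝ) ≤
        ∏ i : Fin n, ∏ j ∈ Ioi i, ((b j.succ : ℝ) - b i.castSucc) := by
      intro c hc
      refine (ih c (inter_mono b c hc)).trans ?_
      unfold vd
      have hm := inter_mono b c hc
      rw [mem_inter] at hc
      refine Finset.prod_le_prod (fun i _ => Finset.prod_nonneg fun j hj => ?_)
        (fun i _ => Finset.prod_le_prod (fun j hj => ?_) (fun j hj => ?_))
      · have : (c i : ℝ) < c j := by exact_mod_cast hm i j (mem_Ioi.mp hj)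
        linarith
      · have : (c i : ℝ) < c j := by exact_mod_cast hm i j (mem_Ioi.mp hj)
        linarith
      · have h1 : (c j : ℝ) < b j.succ := by exact_mod_cast (hc j).2
        have h2 : (b i.castSucc : ℝ) ≤ c i := by exact_mod_cast (hc i).1
        linarith
    refine (Finset.sum_le_sum h1).trans ?_
    rw [Finset.sum_const, nsmul_eq_mul, vd_castSucc, Finset.prod_mul_distrib]
    refine le_of_eq ?_
    congr 1
    unfold inter
    rw [Fintype.card_piFinset]
    push_cast
    refine Finset.prod_congr rfl fun i _ => ?_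
    rw [Nat.card_Ico, Nat.cast_sub (hb _ _ i.castSucc_lt_succ).le]

end W719AEC
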