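import Mathlib
import Pool.Agent.W719.AEC.Defs
import Pool.Agent.W719.AEC.Alt

/-!
# The S-matrix in terms of alternants at roots of unity
-/

set_option autoImplicit false

open Finset

namespace W719AEC

/-- exp (-2 π i / r). -/
noncomputable def w (r : ℕ) : ℂ := Complex.exp (-(2 * Real.pi * Complex.I / r))

theorem w_pow (r n : ℕ) : w r ^ n = Complex.exp (Complex.I * ((-(2 * Real.pi * n / r) : ℝ) : ℂ)) := by
  unfold w
  rw [← Complex.exp_nat_mul]
  congr 1
  push_cast
  ring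

theorem w_norm (r n : ℕ) : ‖w r ^ n‖ = 1 := by
  rw [w_pow, mul_comm, Complex.norm_exp_ofReal_mul_I]

theorem w_pow_r (r : ℕ) (hr : 0 < r) : w r ^ r = 1 := by
  have hr' : (r : ℂ) ≠ 0 := by exact_mod_cast hr.ne'
  unfold w
  rw [← Complex.exp_nat_mul, show (r : ℂ) * -(2 * Real.pi * Complex.I / r) = -(2 * Real.pi * Complex.I) by
    field_simp, Complex.exp_neg, Complex.exp_two_pi_mul_I, inv_one]

theorem w_pow_mod (r n : ℕ) (hr : 0 < r) : w r ^ (n % r) = w r ^ n := by
  conv_rhs => rw [← Nat.div_add_mod n r]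
  rw [pow_add, pow_mul, w_pow_r r hr, one_pow, one_mul]

theorem norm_w_sub_one (r n : ℕ) : ‖w r ^ n - 1‖ = 2 * |Real.sin (Real.pi * n / r)| := by
  rw [w_pow, Complex.norm_exp_I_mul_ofReal_sub_one]
  rw [show -(2 * Real.pi * n / r) / 2 = -(Real.pi * n / r) by ring, Real.sin_neg, Real.norm_eq_abs,
    abs_mul, abs_neg]
  norm_num

theorem norm_w_sub_one_le (r n : ℕ) : ‖w r ^ n - 1‖ ≤ 2 * Real.pi * n / r := by
  rw [norm_w_sub_one]
  have : |Real.sin (Real.pi * n / r)| ≤ |Real.pi * n / r| := Real.abs_sin_le_abs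
  rw [abs_of_nonneg (by positivity : (0 : ℝ) ≤ Real.pi * n / r)] at this
  calc 2 * |Real.sin (Real.pi * n / r)| ≤ 2 * (Real.pi * n / r) := by linarith
    _ = _ := by ring

/-- w^n - w^m = -2 i sin (π (n - m) / r) exp (- π i (n + m) / r). -/
theorem w_sub (r m n : ℕ) : w r ^ n - w r ^ m =
    (-Complex.I * ((2 * Real.sin (Real.pi * ((n : ℝ) - m) / r) : ℝ) : ℂ)) *
      (Complex.exp (-(Real.pi * Complex.I * n / r)) * Complex.exp (-(Real.pi * Complex.I * m / r))) := by
  have h1 : w r ^ n = Complex.exp (-(Real.pi * Complex.I * n / r)) *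
      Complex.exp (-(Real.pi * Complex.I * n / r)) := by
    unfold w
    rw [← Complex.exp_nat_mul, ← Complex.exp_add]; congr 1; ring
  have h2 : w r ^ m = Complex.exp (-(Real.pi * Complex.I * m / r)) *
      Complex.exp (-(Real.pi * Complex.I * m / r)) := by
    unfold w
    rw [← Complex.exp_nat_mul, ← Complex.exp_add]; congr 1; ring
  have h3 : ((2 * Real.sin (Real.pi * ((n : ℝ) - m) / r) : ℝ) : ℂ) =
      (Complex.exp (-(Real.pi * Complex.I * n / r)) * Complex.exp (Real.pi * Complex.I * m / r) -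
        Complex.exp (Real.pi * Complex.I * n / r) * Complex.exp (-(Real.pi * Complex.I * m / r))) *
          Complex.I := by
    push_cast
    rw [Complex.sin]
    rw [← Complex.exp_add, ← Complex.exp_add]
    rw [show -(↑Real.pi * ((n : ℂ) - m) / r) * Complex.I =
      -(Real.pi * Complex.I * n / r) + Real.pi * Complex.I * m / r by ring,
      show (↑Real.pi * ((n : ℂ) - m) / r) * Complex.I =
      Real.pi * Complex.I * n / r + -(Real.pi * Complex.I * m / r) by ring]
    ring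
  have h4 : Complex.exp (Real.pi * Complex.I * n / r) * Complex.exp (-(Real.pi * Complex.I * n / r)) = 1 := by
    rw [← Complex.exp_add, add_neg_cancel, Complex.exp_zero]
  have h5 : Complex.exp (Real.pi * Complex.I * m / r) * Complex.exp (-(Real.pi * Complex.I * m / r)) = 1 := by
    rw [← Complex.exp_add, add_neg_cancel, Complex.exp_zero]
  rw [h1, h2, h3]
  set A := Complex.exp (-(Real.pi * Complex.I * n / r))
  set B := Complex.exp (-(Real.pi * Complex.I * m / r))
  set A' := Complex.exp (Real.pi * Complex.I * n / r)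
  set B' := Complex.exp (Real.pi * Complex.I * m / r)
  have h6 : Complex.I * Complex.I = -1 := Complex.I_mul_I
  linear_combination (A * B' - A' * B) * (A * B) * h6 - A * A * h5 + B * B * h4

theorem norm_w_sub (r m n : ℕ) : ‖w r ^ n - w r ^ m‖ = 2 * |Real.sin (Real.pi * ((n : ℝ) - m) / r)| := by
  rw [w_sub, norm_mul, norm_mul, norm_mul, norm_neg, Complex.norm_I, one_mul]
  have h1 : ‖Complex.exp (-(Real.pi * Complex.I * n / r))‖ = 1 := by
    rw [show -(Real.pi * Complex.I * n / r) = ((-(Real.pi * n / r) : ℝ) : ℂ) * Complex.I by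
      push_cast; ring]
    exact Complex.norm_exp_ofReal_mul_I _
  have h2 : ‖Complex.exp (-(Real.pi * Complex.I * m / r))‖ = 1 := by
    rw [show -(Real.pi * Complex.I * m / r) = ((-(Real.pi * m / r) : ℝ) : ℂ) * Complex.I by
      push_cast; ring]
    exact Complex.norm_exp_ofReal_mul_I _
  rw [h1, h2, Complex.norm_real, Real.norm_eq_abs, abs_mul]
  norm_num

/-- The (absolute value of the) Weyl denominator at a. -/
noncomputable def V {N : ℕ} (r : ℕ) (a : Fin N → ℕ) : ℝ := ‖vd (fun i => w r ^ a i)‖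

theorem V_eq {N : ℕ} (r : ℕ) (a : Fin N → ℕ) :
    V r a = ∏ i : Fin N, ∏ j ∈ Ioi i, ‖w r ^ a j - w r ^ a i‖ := by
  unfold V vd
  rw [norm_prod]
  exact Finset.prod_congr rfl fun i _ => norm_prod _ _

/-- The number of pairs i < j. -/
theorem prod_pairs_const {M : Type*} [CommMonoid M] (N : ℕ) (c : M) :
    ∏ i : Fin N, ∏ _j ∈ Ioi i, c = c ^ (N * (N - 1) / 2) := by
  induction N with
  | zero => simp
  | succ n ih =>
    rw [Fin.prod_univ_succ, Fin.prod_Ioi_zero]
    have h1 : ∀ i : Fin n, ∏ _j ∈ Ioi i.succ, c = ∏ _j ∈ Ioi i, c := fun i => by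
      rw [Fin.prod_Ioi_succ]
    rw [Finset.prod_congr rfl fun i _ => h1 i, ih, Finset.prod_const, Finset.card_univ,
      Fintype.card_fin, ← pow_add]
    congr 1
    have h2 : (n + 1) * (n + 1 - 1) = n * (n - 1) + 2 * n := by
      cases n with
      | zero => rfl
      | succ m => simp only [Nat.add_sub_cancel]; ring
    rw [h2]
    omega

theorem prod_pairs_mul {M : Type*} [CommMonoid M] (N : ℕ) (u : Fin N → M) :
    ∏ i : Fin N, ∏ j ∈ Ioi i, (u j * u i) = (∏ i, u i) ^ (N - 1) := by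
  induction N with
  | zero => simp
  | succ n ih =>
    rw [Fin.prod_univ_succ, Fin.prod_Ioi_zero]
    have h1 : ∀ i : Fin n, ∏ j ∈ Ioi i.succ, (u j * u i.succ) = ∏ j ∈ Ioi i, (u j.succ * u i.succ) :=
      fun i => by rw [Fin.prod_Ioi_succ]
    rw [Finset.prod_congr rfl fun i _ => h1 i, ih (fun i => u i.succ), Finset.prod_mul_distrib,
      Finset.prod_const, Finset.card_univ, Fintype.card_fin, Fin.prod_univ_succ]
    cases n with
    | zero => simp
    | succ m =>
      simp only [Nat.add_sub_cancel]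
      rw [mul_pow, pow_succ (∏ i : Fin (m + 1), u i.succ) m]
      rw [mul_comm (∏ i : Fin (m + 1), u i.succ) (u 0 ^ (m + 1)), mul_assoc,
        mul_comm (∏ i : Fin (m + 1), u i.succ)]

/-- κ = N^(-1/2) r^(-(N-1)/2). -/
noncomputable def kap (N r : ℕ) : ℝ := 1 / (Real.sqrt N * Real.sqrt r ^ (N - 1))

theorem kap_pos (N r : ℕ) (hN : 0 < N) (hr : 0 < r) : 0 < kap N r := by
  unfold kap
  have h1 : 0 < Real.sqrt N := Real.sqrt_pos.mpr (by exact_mod_cast hN)
  have h2 : 0 < Real.sqrt r := Real.sqrt_pos.mpr (by exact_mod_cast hr)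
  positivity

theorem kap_sq (N r : ℕ) : (kap N r) ^ 2 = 1 / (N * (r : ℝ) ^ (N - 1)) := by
  unfold kap
  rw [div_pow, one_pow, mul_pow, Real.sq_sqrt (Nat.cast_nonneg _), ← pow_mul, mul_comm (N - 1) 2,
    pow_mul, Real.sq_sqrt (Nat.cast_nonneg _)]

theorem Smat_norm (N r : ℕ) (a b : Fin N → ℕ) :
    ‖Smat N r a b‖ = kap N r * ‖alt b (fun i => w r ^ a i)‖ := by
  unfold Smat
  rw [norm_mul, norm_mul, norm_div, norm_pow, Complex.norm_I, one_pow, Complex.norm_real]
  have h1 : ‖Complex.exp (2 * Real.pi * Complex.I * ((∑ i, (a i : ℂ)) * (∑ i, (b i : ℂ)) / (N * r)))‖ = 1 := by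
    have : (2 * Real.pi * Complex.I * ((∑ i, (a i : ℂ)) * (∑ i, (b i : ℂ)) / (N * r))) =
        ((2 * Real.pi * ((∑ i, (a i : ℝ)) * (∑ i, (b i : ℝ)) / (N * r)) : ℝ) : ℂ) * Complex.I := by
      push_cast; ring
    rw [this]
    exact Complex.norm_exp_ofReal_mul_I _
  rw [h1, mul_one]
  have h2 : Real.sqrt N * Real.sqrt r ^ (N - 1) ≥ 0 := by positivity
  rw [Real.norm_eq_abs, abs_of_nonneg h2]
  unfold kap
  congr 2
  unfold alt
  rw [← Matrix.det_transpose]
  congr 1
  ext i j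
  simp only [Matrix.transpose_apply, Matrix.of_apply]
  rw [← pow_mul]
  unfold w
  rw [← Complex.exp_nat_mul]
  congr 1
  push_cast
  ring

/-- S_{0b} = κ ∏_{i<j} 2 sin (π (b_j - b_i) / r). -/
theorem Smat_triv (N r : ℕ) (hN : 0 < N) (b : Fin N → ℕ) :
    Smat N r (triv N) b =
      ((kap N r * ∏ i : Fin N, ∏ j ∈ Ioi i, (2 * Real.sin (Real.pi * ((b j : ℝ) - b i) / r)) : ℝ) : ℂ) := by
  have h1 : Matrix.det (Matrix.of fun i j : Fin N =>
      Complex.exp (-(2 * Real.pi * Complex.I * ((triv N i : ℂ) * (b j : ℂ) / r)))) =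
      vd (fun i => w r ^ b i) := by
    rw [vd_eq_det, ← Matrix.det_transpose]
    congr 1
    ext i j
    simp only [Matrix.transpose_apply, Matrix.of_apply, Matrix.vandermonde_apply, triv]
    rw [← pow_mul]
    unfold w
    rw [← Complex.exp_nat_mul]
    congr 1
    push_cast
    ring
  have h2 : vd (fun i => w r ^ b i) = (-Complex.I) ^ (N * (N - 1) / 2) *
      ((∏ i : Fin N, ∏ j ∈ Ioi i, (2 * Real.sin (Real.pi * ((b j : ℝ) - b i) / r)) : ℝ) : ℂ) *
      (∏ i : Fin N, Complex.exp (-(Real.pi * Complex.I * b i / r))) ^ (N - 1) := by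
    unfold vd
    rw [← prod_pairs_mul, ← prod_pairs_const N (-Complex.I)]
    push_cast
    rw [← Finset.prod_mul_distrib, ← Finset.prod_mul_distrib]
    refine Finset.prod_congr rfl fun i _ => ?_
    rw [← Finset.prod_mul_distrib, ← Finset.prod_mul_distrib]
    refine Finset.prod_congr rfl fun j _ => ?_
    rw [w_sub]
    push_cast
    ring
  have h3 : (∑ i : Fin N, ((triv N i : ℕ) : ℂ)) = N * (N - 1) / 2 := by
    have : ∑ i : Fin N, ((triv N i : ℕ) : ℂ) = ∑ i ∈ range N, (i : ℂ) := by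
      rw [Finset.sum_range]; rfl
    rw [this]
    have h := Finset.sum_range_id_mul_two N
    have h' : (∑ i ∈ range N, (i : ℂ)) * 2 = N * (N - 1) := by
      have := congrArg (fun x : ℕ => (x : ℂ)) h
      simp only [Nat.cast_mul, Nat.cast_sum, Nat.cast_ofNat] at this
      rw [this, Nat.cast_sub hN, Nat.cast_one]
    linear_combination h' / 2
  have h4 : Complex.exp (2 * Real.pi * Complex.I * ((∑ i, ((triv N i : ℕ) : ℂ)) *
      (∑ i, (b i : ℂ)) / (N * r))) *
      (∏ i : Fin N, Complex.exp (-(Real.pi * Complex.I * b i / r))) ^ (N - 1) = 1 := by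
    rw [h3, ← Complex.exp_sum, ← Complex.exp_nat_mul, ← Complex.exp_add, Nat.cast_sub hN, Nat.cast_one]
    have : 2 * Real.pi * Complex.I * ((N : ℂ) * (N - 1) / 2 * (∑ i, (b i : ℂ)) / (N * r)) +
        ((N : ℂ) - 1) * ∑ i : Fin N, -(Real.pi * Complex.I * b i / r) = 0 := by
      have hN' : (N : ℂ) ≠ 0 := by exact_mod_cast hN.ne'
      have e1 : ∑ i : Fin N, -(Real.pi * Complex.I * (b i : ℂ) / r) =
          -(Real.pi * Complex.I / r) * ∑ i, (b i : ℂ) := by
        rw [Finset.mul_sum]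
        exact Finset.sum_congr rfl fun i _ => by ring
      rw [e1]
      by_cases hr : (r : ℂ) = 0
      · rw [hr]; simp
      · field_simp
        ring
    rw [this, Complex.exp_zero]
  have h5 : Complex.I ^ (N * (N - 1) / 2) * (-Complex.I) ^ (N * (N - 1) / 2) = 1 := by
    rw [← mul_pow, mul_neg, Complex.I_mul_I, neg_neg, one_pow]
  unfold Smat
  rw [h1, h2]
  unfold kap
  rw [Complex.ofReal_mul (1 / _), Complex.ofReal_div 1, Complex.ofReal_one]
  generalize (∏ i : Fin N, Complex.exp (-(Real.pi * Complex.I * b i / r))) ^ (N - 1) = X at h4 ⊢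
  generalize Complex.exp (2 * Real.pi * Complex.I * ((∑ i, ((triv N i : ℕ) : ℂ)) *
      (∑ i, (b i : ℂ)) / (N * r))) = Y at h4 ⊢
  generalize Complex.I ^ (N * (N - 1) / 2) = P at h5 ⊢
  generalize (-Complex.I) ^ (N * (N - 1) / 2) = Q at h5 ⊢
  generalize ((∏ i : Fin N, ∏ j ∈ Ioi i, (2 * Real.sin (Real.pi * ((b j : ℝ) - b i) / r)) : ℝ) : ℂ) = T
  generalize ((Real.sqrt N * Real.sqrt r ^ (N - 1) : ℝ) : ℂ) = K
  rw [div_eq_mul_inv, div_eq_mul_inv, one_mul]
  linear_combination (K⁻¹ * T * X * Y) * h5 + K⁻¹ * T * h4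

end W719AEC
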