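import Mathlib
import Pool.Agent.W719.AEC.Root

/-!
# Estimates for the normalised S-matrix entries
-/

set_option autoImplicit false

open Finset

namespace W719AEC

theorem mem_labels {N r : ℕ} {a : Fin N → ℕ} : a ∈ labels N r ↔
    (∀ i, a i < r) ∧ (∀ i j : Fin N, i < j → a i < a j) ∧ ∀ i : Fin N, (i : ℕ) = 0 → a i = 0 := by
  unfold labels
  rw [mem_filter, Fintype.mem_piFinset]
  simp only [mem_range]

theorem sin_pos_of_lt {r m n : ℕ} (h : m < n) (hn : n < r) :
    0 < Real.sin (Real.pi * ((n : ℝ) - m) / r) := by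
  have h1 : (m : ℝ) < n := by exact_mod_cast h
  have h2 : (n : ℝ) < r := by exact_mod_cast hn
  have h3 : (0 : ℝ) ≤ m := Nat.cast_nonneg m
  have hr : (0 : ℝ) < r := by linarith
  apply Real.sin_pos_of_pos_of_lt_pi
  · have : 0 < (n : ℝ) - m := by linarith
    positivity
  · rw [div_lt_iff₀ hr]
    have : (n : ℝ) - m < r := by linarith
    exact mul_lt_mul_of_pos_left this Real.pi_pos

theorem V_eq_sin {N r : ℕ} {a : Fin N → ℕ} (ha : a ∈ labels N r) :
    V r a = ∏ i : Fin N, ∏ j ∈ Ioi i, (2 * Real.sin (Real.pi * ((a j : ℝ) - a i) / r)) := by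
  rw [mem_labels] at ha
  rw [V_eq]
  refine Finset.prod_congr rfl fun i _ => Finset.prod_congr rfl fun j hj => ?_
  rw [norm_w_sub, abs_of_pos (sin_pos_of_lt (ha.2.1 i j (mem_Ioi.mp hj)) (ha.1 j))]

theorem V_pos {N r : ℕ} {a : Fin N → ℕ} (ha : a ∈ labels N r) : 0 < V r a := by
  rw [V_eq_sin ha]
  rw [mem_labels] at ha
  refine Finset.prod_pos fun i _ => Finset.prod_pos fun j hj => ?_
  have := sin_pos_of_lt (ha.2.1 i j (mem_Ioi.mp hj)) (ha.1 j)
  linarith

theorem Smat_triv_eq {N r : ℕ} (hN : 0 < N) {a : Fin N → ℕ} (ha : a ∈ labels N r) :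
    Smat N r (triv N) a = ((kap N r * V r a : ℝ) : ℂ) := by
  rw [Smat_triv N r hN a, V_eq_sin ha]

/-- The normalised entry. -/
noncomputable def F {N : ℕ} (r : ℕ) (a b : Fin N → ℕ) : ℝ :=
  ‖alt b (fun i => w r ^ a i)‖ / (V r a * V r b)

theorem F_nonneg {N : ℕ} (r : ℕ) (a b : Fin N → ℕ) : 0 ≤ F r a b := by
  unfold F V
  positivity

theorem sin_lower (N : ℕ) (hN : 1 ≤ N) (y : ℝ) (h0 : 0 ≤ y) (h1 : y ≤ 1 - 1 / N) :
    2 / N * y ≤ Real.sin (Real.pi * y) := by
  have hN' : (1 : ℝ) ≤ N := by exact_mod_cast hN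
  have hN0 : (0 : ℝ) < N := by linarith
  have hpi := Real.pi_pos
  by_cases hy : y ≤ 1 / 2
  · have h2 := Real.mul_le_sin (x := Real.pi * y) (by positivity) (by nlinarith)
    have h3 : 2 / Real.pi * (Real.pi * y) = 2 * y := by field_simp
    rw [h3] at h2
    have h4 : 2 / (N : ℝ) ≤ 2 := by
      rw [div_le_iff₀ hN0]; linarith
    nlinarith
  · push Not at hy
    have h2 := Real.mul_le_sin (x := Real.pi * (1 - y)) (by
      have : 0 ≤ 1 - y := by
        have : (0 : ℝ) < 1 / N := by positivity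
        linarith
      positivity) (by nlinarith)
    have h3 : 2 / Real.pi * (Real.pi * (1 - y)) = 2 * (1 - y) := by field_simp
    rw [h3, show Real.pi * (1 - y) = Real.pi - Real.pi * y by ring, Real.sin_pi_sub] at h2
    have h4 : 1 / (N : ℝ) ≤ 1 - y := by linarith
    have h5 : y ≤ 1 := by
      have : (0 : ℝ) < 1 / N := by positivity
      linarith
    calc 2 / (N : ℝ) * y ≤ 2 / N * 1 := mul_le_mul_of_nonneg_left h5 (by positivity)
      _ = 2 * (1 / N) := by ring
      _ ≤ 2 * (1 - y) := by linarith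
      _ ≤ _ := h2

/-- The rotation: some translate of b modulo r lies in the window [0, (1 - 1/N) r]. -/
theorem exists_rot (N r : ℕ) (hN : 0 < N) (hr : 0 < r) (b : Fin N → ℕ) :
    ∃ t : ℕ, ∀ i, N * ((b i + t) % r) ≤ (N - 1) * r := by
  by_contra hcon
  push Not at hcon
  -- the bad sets
  let B : Fin N → Finset ℕ := fun i => (range r).filter fun t => (N - 1) * r < N * ((b i + t) % r)
  have h1 : range r ⊆ univ.biUnion B := by
    intro t ht
    obtain ⟨i, hi⟩ := hcon t
    rw [mem_biUnion]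
    exact ⟨i, mem_univ _, by simp only [B, mem_filter]; exact ⟨ht, hi⟩⟩
  have h2 : ∀ i, (B i).card ≤ (r - 1) / N := by
    intro i
    -- inject into {1..(r-1)/N}
    have : (B i).card ≤ (Icc 1 ((r - 1) / N)).card := by
      refine Finset.card_le_card_of_injOn (fun t => r - (b i + t) % r) ?_ ?_
      · intro t ht
        simp only [B, coe_filter, mem_range, Set.mem_ofPred_eq] at ht
        have hm := Nat.mod_lt (b i + t) hr
        simp only [coe_Icc, Set.mem_Icc]
        refine ⟨by omega, ?_⟩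
        rw [Nat.le_div_iff_mul_le hN]
        have h3 := ht.2
        generalize (b i + t) % r = m at hm h3 ⊢
        obtain ⟨k, rfl⟩ : ∃ k, N = k + 1 := ⟨N - 1, by omega⟩
        simp only [Nat.add_sub_cancel] at h3
        obtain ⟨s, rfl⟩ := Nat.exists_eq_add_of_lt hm
        have e1 : m + s + 1 - m = s + 1 := by omega
        have e2 : m + s + 1 - 1 = m + s := by omega
        rw [e1, e2]
        nlinarith
      · intro t ht t' ht' heq
        simp only [B, coe_filter, mem_range, Set.mem_ofPred_eq] at ht ht'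
        have hm := Nat.mod_lt (b i + t) hr
        have hm' := Nat.mod_lt (b i + t') hr
        simp only at heq
        have h3 : (b i + t) % r = (b i + t') % r := by omega
        have h4 : t ≡ t' [MOD r] := Nat.ModEq.add_left_cancel' (b i) h3
        exact Nat.ModEq.eq_of_lt_of_lt h4 ht.1 ht'.1
    rwa [Nat.card_Icc, Nat.add_sub_cancel] at this
  have h3 := (Finset.card_le_card h1).trans (Finset.card_biUnion_le.trans
    (Finset.sum_le_sum fun i _ => h2 i))
  rw [card_range, Finset.sum_const, card_univ, Fintype.card_fin, smul_eq_mul] at h3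
  have h4 := Nat.mul_div_le (r - 1) N
  omega

theorem alt_perm {N : ℕ} (b : Fin N → ℕ) (z : Fin N → ℂ) (σ : Equiv.Perm (Fin N)) :
    ‖alt (fun i => b (σ i)) z‖ = ‖alt b z‖ := by
  have h : alt (fun i => b (σ i)) z = (Equiv.Perm.sign σ : ℂ) * alt b z := by
    unfold alt
    exact Matrix.det_permute σ (Matrix.of fun i j : Fin N => z j ^ b i)
  rw [h, norm_mul]
  rcases Int.units_eq_one_or (Equiv.Perm.sign σ) with h1 | h1 <;> rw [h1] <;> simp

theorem vd_perm {N : ℕ} (v : Fin N → ℝ) (σ : Equiv.Perm (Fin N)) :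
    |vd (fun i => v (σ i))| = |vd v| := by
  have h : vd (fun i => v (σ i)) = (Equiv.Perm.sign σ : ℝ) * vd v := by
    rw [vd_eq_det, vd_eq_det]
    exact Matrix.det_permute σ (Matrix.vandermonde v)
  rw [h, abs_mul]
  rcases Int.units_eq_one_or (Equiv.Perm.sign σ) with h1 | h1 <;> rw [h1] <;> simp

theorem alt_le {N : ℕ} (b : Fin N → ℕ) (hb : Function.Injective b) (z : Fin N → ℂ)
    (hz : ∀ i, ‖z i‖ = 1) : ‖alt b z‖ ≤ ‖vd z‖ * |vd (fun i => (b i : ℝ))| := by
  have hmono := Tuple.monotone_sort b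
  have hinj : Function.Injective (fun i => b (Tuple.sort b i)) :=
    hb.comp (Tuple.sort b).injective
  have hs : StrictMono (fun i => b (Tuple.sort b i)) := hmono.strictMono_of_injective hinj
  rw [← alt_perm b z (Tuple.sort b), ← vd_perm (fun i => (b i : ℝ)) (Tuple.sort b),
    alt_eq _ z (fun i j hij => hs hij), norm_mul]
  refine mul_le_mul_of_nonneg_left ?_ (norm_nonneg _)
  refine (sch_norm_le _ z hz).trans ((dm_le _ (fun i j hij => hs hij)).trans (le_abs_self _))

theorem F_le {N r : ℕ} (hN : 0 < N) (hr : 0 < r) {a b : Fin N → ℕ} (ha : a ∈ labels N r)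
    (hb : b ∈ labels N r) : F r a b ≤ (N * r / 4 : ℝ) ^ (N * (N - 1) / 2) := by
  obtain ⟨t, ht⟩ := exists_rot N r hN hr b
  have hr' : (0 : ℝ) < r := by exact_mod_cast hr
  have hN' : (0 : ℝ) < N := by exact_mod_cast hN
  set b' : Fin N → ℕ := fun i => (b i + t) % r with hb'
  have hbm := mem_labels.mp hb
  have hinj : Function.Injective b' := by
    intro i j hij
    have h4 : b i ≡ b j [MOD r] := Nat.ModEq.add_right_cancel' t hij
    have h5 : b i = b j := Nat.ModEq.eq_of_lt_of_lt h4 (hbm.1 i) (hbm.1 j)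
    by_contra hne
    rcases lt_or_gt_of_ne hne with h | h
    · have := hbm.2.1 i j h; omega
    · have := hbm.2.1 j i h; omega
  have hw : ∀ i, w r ^ b' i = w r ^ t * w r ^ b i := by
    intro i
    rw [hb', w_pow_mod _ _ hr, pow_add, mul_comm]
  have hV : V r b' = V r b := by
    rw [V_eq, V_eq]
    refine Finset.prod_congr rfl fun i _ => Finset.prod_congr rfl fun j _ => ?_
    rw [hw, hw, ← mul_sub, norm_mul, w_norm, one_mul]
  have halt : ‖alt b' (fun i => w r ^ a i)‖ = ‖alt b (fun i => w r ^ a i)‖ := by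
    have h1 : alt b' (fun i => w r ^ a i) = (∏ j, (w r ^ a j) ^ t) * alt b (fun i => w r ^ a i) := by
      unfold alt
      rw [← Matrix.det_mul_row]
      congr 1
      ext i j
      simp only [Matrix.of_apply]
      have h2 : (w r ^ a j) ^ r = 1 := by rw [← pow_mul, mul_comm, pow_mul, w_pow_r r hr, one_pow]
      rw [hb', ← pow_eq_pow_mod _ h2, pow_add, mul_comm]
    rw [h1, norm_mul, norm_prod]
    simp only [norm_pow]
    have h2 : ∀ j, (‖w r‖ ^ a j) ^ t = 1 := by
      intro j
      rw [← norm_pow, w_norm, one_pow]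
    simp only [h2, Finset.prod_const_one, one_mul]
  have h1 := alt_le b' hinj (fun i => w r ^ a i) (fun i => w_norm _ _)
  have h2 : |vd (fun i => (b' i : ℝ))| ≤ (N * r / 4 : ℝ) ^ (N * (N - 1) / 2) * V r b' := by
    rw [V_eq, ← prod_pairs_const N (N * r / 4 : ℝ), ← Finset.prod_mul_distrib]
    unfold vd
    rw [Finset.abs_prod]
    refine Finset.prod_le_prod (fun i _ => abs_nonneg _) fun i _ => ?_
    rw [Finset.abs_prod, ← Finset.prod_mul_distrib]
    refine Finset.prod_le_prod (fun j _ => abs_nonneg _) fun j _ => ?_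
    rw [norm_w_sub]
    have h3 : ∀ i, (b' i : ℝ) / r ≤ 1 - 1 / N := by
      intro i
      have h4 := ht i
      have h5 : (N : ℝ) * b' i ≤ (N - 1) * r := by
        have := (Nat.cast_le (α := ℝ)).mpr h4
        rw [Nat.cast_mul, Nat.cast_mul, Nat.cast_sub hN] at this
        simpa using this
      rw [div_le_iff₀ hr']
      have : (1 - 1 / (N : ℝ)) * r = (N - 1) * r / N := by field_simp
      rw [this, le_div_iff₀ hN']
      linarith
    have h0 : ∀ i, 0 ≤ (b' i : ℝ) / r := fun i => by positivity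
    have h4 : |(b' j : ℝ) - b' i| / r ≤ 1 - 1 / N := by
      rw [show |(b' j : ℝ) - b' i| / r = |(b' j : ℝ) / r - b' i / r| by
        rw [← sub_div, abs_div, abs_of_pos hr']]
      rw [abs_le]
      constructor <;> linarith [h3 i, h3 j, h0 i, h0 j]
    have h5 := sin_lower N hN (|(b' j : ℝ) - b' i| / r) (by positivity) h4
    have h6 : |Real.sin (Real.pi * ((b' j : ℝ) - b' i) / r)| =
        |Real.sin (Real.pi * (|(b' j : ℝ) - b' i| / r))| := by
      rcases abs_cases ((b' j : ℝ) - b' i) with ⟨h, _⟩ | ⟨h, _⟩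
      · rw [h]; congr 2; ring
      · rw [h, show Real.pi * (-((b' j : ℝ) - b' i) / r) = -(Real.pi * ((b' j : ℝ) - b' i) / r) by ring,
          Real.sin_neg, abs_neg]
    rw [h6]
    have h7 := h5.trans (le_abs_self _)
    calc |(b' j : ℝ) - b' i| = N * r / 4 * (2 * (2 / N * (|(b' j : ℝ) - b' i| / r))) := by
          field_simp
          norm_num
      _ ≤ _ := by
          apply mul_le_mul_of_nonneg_left _ (by positivity)
          linarith
  unfold F
  rw [← halt, ← hV]
  have hVa := V_pos ha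
  have hVb : 0 < V r b' := by rw [hV]; exact V_pos hb
  rw [div_le_iff₀ (mul_pos hVa hVb)]
  calc ‖alt b' (fun i => w r ^ a i)‖ ≤ V r a * |vd (fun i => (b' i : ℝ))| := h1
    _ ≤ V r a * ((N * r / 4 : ℝ) ^ (N * (N - 1) / 2) * V r b') :=
        mul_le_mul_of_nonneg_left h2 hVa.le
    _ = _ := by ring

theorem F_le' {N r : ℕ} {a b : Fin N → ℕ} (ha : a ∈ labels N r) (hb : b ∈ labels N r) :
    F r a b ≤ (Nat.factorial N : ℝ) / (V r a * V r b) := by
  unfold F
  refine div_le_div_of_nonneg_right ?_ (mul_pos (V_pos ha) (V_pos hb)).le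
  unfold alt
  have h := Matrix.det_le (A := Matrix.of fun i j : Fin N => (w r ^ a j) ^ b i)
    (abv := (NormedField.toAbsoluteValue ℂ : AbsoluteValue ℂ ℝ)) (x := 1) (by
      intro i j
      show ‖(Matrix.of fun i j : Fin N => (w r ^ a j) ^ b i) i j‖ ≤ 1
      simp only [Matrix.of_apply]
      rw [norm_pow, w_norm, one_pow])
  rw [Fintype.card_fin, one_pow, nsmul_eq_mul, mul_one] at h
  exact h

end W719AEC
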