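import Mathlib
import Pool.Agent.W719.AEC.Est

/-!
# Lower bound
-/

set_option autoImplicit false

open Finset

namespace W719AEC

/-- V(b) = |alternant of b at (1, w, w^2, ...)|. -/
theorem V_eq_alt {N : ℕ} (r : ℕ) (b : Fin N → ℕ) : V r b = ‖alt b (fun i => w r ^ triv N i)‖ := by
  unfold V alt
  rw [vd_eq_det]
  congr 2
  ext i j
  simp only [Matrix.vandermonde_apply, Matrix.of_apply, triv]
  rw [← pow_mul, ← pow_mul, mul_comm]

theorem V_triv_le (N r : ℕ) (hr : 0 < r) :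
    V r (triv N) ≤ (2 * Real.pi * N / r : ℝ) ^ (N * (N - 1) / 2) := by
  rw [V_eq, ← prod_pairs_const N (2 * Real.pi * N / r : ℝ)]
  have hr' : (0 : ℝ) < r := by exact_mod_cast hr
  refine Finset.prod_le_prod (fun i _ => Finset.prod_nonneg fun j _ => norm_nonneg _) fun i _ =>
    Finset.prod_le_prod (fun j _ => norm_nonneg _) fun j hj => ?_
  have hij : (i : ℕ) < j := Fin.lt_def.mp (mem_Ioi.mp hj)
  have h1 : w r ^ triv N j - w r ^ triv N i = w r ^ (i : ℕ) * (w r ^ ((j : ℕ) - i) - 1) := by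
    simp only [triv]
    rw [mul_sub, mul_one, ← pow_add]
    congr 2
    omega
  rw [h1, norm_mul, w_norm, one_mul]
  refine (norm_w_sub_one_le r _).trans ?_
  have h2 : (((j : ℕ) - (i : ℕ) : ℕ) : ℝ) ≤ N := by
    have : (j : ℕ) - i ≤ N := by have := j.isLt; omega
    exact_mod_cast this
  apply div_le_div_of_nonneg_right _ hr'.le
  exact mul_le_mul_of_nonneg_left h2 (by positivity)

theorem F_ge {N r : ℕ} (hN : 0 < N) (hr : 0 < r) {a b : Fin N → ℕ} (ha : a ∈ labels N r)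
    (hb : b ∈ labels N r) (A B : ℕ) (hA : ∀ i, a i ≤ A) (hB : ∀ i, b i ≤ B)
    (hAB : 13 * N * (A * B) ≤ r) :
    1 / 2 * (r / (2 * Real.pi * N) : ℝ) ^ (N * (N - 1) / 2) ≤ F r a b := by
  have hr' : (0 : ℝ) < r := by exact_mod_cast hr
  have hN' : (0 : ℝ) < N := by exact_mod_cast hN
  have hpi := Real.pi_pos
  have ham := mem_labels.mp ha
  have hbm := mem_labels.mp hb
  have hVa := V_pos ha
  have hVb := V_pos hb
  have hdm : (0 : ℝ) < dm N b := by exact_mod_cast dm_pos b hbm.2.1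
  -- numerator
  have h1 : ‖alt b (fun i => w r ^ a i)‖ = V r a * ‖sch N b (fun i => w r ^ a i)‖ := by
    rw [alt_eq b _ hbm.2.1, norm_mul]; rfl
  have h2 : ∀ i, ‖w r ^ a i - 1‖ ≤ 2 * Real.pi * A / r := by
    intro i
    refine (norm_w_sub_one_le r _).trans ?_
    have : (a i : ℝ) ≤ A := by exact_mod_cast hA i
    apply div_le_div_of_nonneg_right _ hr'.le
    exact mul_le_mul_of_nonneg_left this (by positivity)
  have h3 := sch_close b (fun i => w r ^ a i) _ (fun i => w_norm _ _) h2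
  have h4 : 2 * Real.pi * A / r * (∑ i, (b i : ℝ)) ≤ 1 / 2 := by
    have h5 : ∑ i, (b i : ℝ) ≤ N * B := by
      calc ∑ i, (b i : ℝ) ≤ ∑ _i : Fin N, (B : ℝ) :=
            Finset.sum_le_sum fun i _ => by exact_mod_cast hB i
        _ = N * B := by rw [Finset.sum_const, card_univ, Fintype.card_fin, nsmul_eq_mul]
    have h6 : (13 : ℝ) * N * (A * B) ≤ r := by exact_mod_cast hAB
    have h7 : (0 : ℝ) ≤ N * (A * B) := by positivity
    calc 2 * Real.pi * A / r * (∑ i, (b i : ℝ)) ≤ 2 * Real.pi * A / r * (N * B) :=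
          mul_le_mul_of_nonneg_left h5 (by positivity)
      _ = 2 * Real.pi * (N * (A * B)) / r := by ring
      _ ≤ 1 / 2 := by
          rw [div_le_iff₀ hr']
          nlinarith [Real.pi_lt_d2]
  have h5 : (dm N b : ℝ) / 2 ≤ ‖sch N b (fun i => w r ^ a i)‖ := by
    have h6 : ‖(dm N b : ℂ)‖ = dm N b := by
      rw [Complex.norm_natCast]
    have h7 := norm_sub_norm_le ((dm N b : ℕ) : ℂ) (sch N b (fun i => w r ^ a i))
    rw [h6, norm_sub_rev] at h7
    have h8 := mul_le_mul_of_nonneg_right h4 hdm.le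
    linarith
  -- denominator
  have h6 : V r b ≤ (2 * Real.pi * N / r : ℝ) ^ (N * (N - 1) / 2) * dm N b := by
    rw [V_eq_alt, alt_eq b _ hbm.2.1, norm_mul]
    exact mul_le_mul (V_triv_le N r hr) (sch_norm_le b _ fun i => w_norm _ _) (norm_nonneg _)
      (by positivity)
  unfold F
  rw [h1, mul_div_mul_left _ _ hVa.ne', le_div_iff₀ hVb]
  calc 1 / 2 * (r / (2 * Real.pi * N) : ℝ) ^ (N * (N - 1) / 2) * V r b
      ≤ 1 / 2 * (r / (2 * Real.pi * N) : ℝ) ^ (N * (N - 1) / 2) *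
        ((2 * Real.pi * N / r : ℝ) ^ (N * (N - 1) / 2) * dm N b) :=
        mul_le_mul_of_nonneg_left h6 (by positivity)
    _ = 1 / 2 * ((r / (2 * Real.pi * N) : ℝ) * (2 * Real.pi * N / r : ℝ)) ^ (N * (N - 1) / 2) * dm N b := by
        rw [mul_pow]; ring
    _ = dm N b / 2 := by
        have : (r / (2 * Real.pi * N) : ℝ) * (2 * Real.pi * N / r : ℝ) = 1 := by field_simp
        rw [this, one_pow]; ring
    _ ≤ _ := h5

/-- A block of labels. -/
def block (N q : ℕ) : Finset (Fin N → ℕ) :=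
  Fintype.piFinset fun i : Fin N => if (i : ℕ) = 0 then {0} else Ioc ((i : ℕ) * q) ((i + 1) * q)

theorem mem_block {N q : ℕ} {a : Fin N → ℕ} (h : a ∈ block N q) :
    (∀ i : Fin N, (i : ℕ) = 0 → a i = 0) ∧
      ∀ i : Fin N, (i : ℕ) ≠ 0 → (i : ℕ) * q < a i ∧ a i ≤ (i + 1) * q := by
  unfold block at h
  rw [Fintype.mem_piFinset] at h
  constructor
  · intro i hi
    have := h i
    rw [if_pos hi, mem_singleton] at this
    exact this
  · intro i hi
    have := h i
    rw [if_neg hi, mem_Ioc] at this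
    exact this

theorem block_card (N q : ℕ) (hN : 0 < N) : (block N q).card = q ^ (N - 1) := by
  unfold block
  rw [Fintype.card_piFinset]
  obtain ⟨n, rfl⟩ : ∃ n, N = n + 1 := ⟨N - 1, by omega⟩
  rw [Fin.prod_univ_succ]
  have h1 : ∀ i : Fin n, (if ((i.succ : Fin (n + 1)) : ℕ) = 0 then ({0} : Finset ℕ) else
      Ioc (((i.succ : Fin (n + 1)) : ℕ) * q) ((((i.succ : Fin (n + 1)) : ℕ) + 1) * q)).card = q := by
    intro i
    rw [if_neg (by simp), Nat.card_Ioc, ← Nat.sub_mul]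
    simp
  rw [Finset.prod_congr rfl fun i _ => h1 i]
  simp

theorem block_le {N q : ℕ} {a : Fin N → ℕ} (h : a ∈ block N q) (i : Fin N) : a i ≤ N * q := by
  obtain ⟨h0, h1⟩ := mem_block h
  by_cases hi : (i : ℕ) = 0
  · rw [h0 i hi]; exact Nat.zero_le _
  · exact (h1 i hi).2.trans (Nat.mul_le_mul_right q i.isLt)

theorem block_subset {N q r : ℕ} (hq : N * q < r) : block N q ⊆ labels N r := by
  intro a ha
  obtain ⟨h0, h1⟩ := mem_block ha
  rw [mem_labels]
  refine ⟨fun i => lt_of_le_of_lt (block_le ha i) hq, fun i j hij => ?_, h0⟩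
  have hj0 : (j : ℕ) ≠ 0 := by
    have : (i : ℕ) < j := hij
    omega
  have hj := (h1 j hj0).1
  by_cases hi : (i : ℕ) = 0
  · rw [h0 i hi]; exact lt_of_le_of_lt (Nat.zero_le _) hj
  · refine lt_of_le_of_lt ((h1 i hi).2.trans (Nat.mul_le_mul_right q ?_)) hj
    exact hij

/-- The lower bound for the sum of the squares. -/
theorem sum_F_ge {N : ℕ} (hN : 2 ≤ N) (S r : ℕ) (hr : 26 * N ^ 3 * 2 ^ S ≤ r) :
    S * ((r / (26 * N ^ 3) : ℝ) ^ (N - 1) *
      (1 / 2 * (r / (2 * Real.pi * N) : ℝ) ^ (N * (N - 1) / 2)) ^ 2) ≤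
      ∑ a ∈ labels N r, ∑ b ∈ labels N r, F r a b ^ 2 := by
  classical
  have hN0 : 0 < N := by omega
  have hN' : (0 : ℝ) < N := by exact_mod_cast hN0
  have hr0 : 0 < r := by
    have : 0 < 26 * N ^ 3 * 2 ^ S := by positivity
    omega
  have hr' : (0 : ℝ) < r := by exact_mod_cast hr0
  set c : ℝ := 1 / 2 * (r / (2 * Real.pi * N) : ℝ) ^ (N * (N - 1) / 2) with hc
  have hpi := Real.pi_pos
  have hc0 : 0 ≤ c := by positivity
  let q' : ℕ → ℕ := fun s => r / (13 * N ^ 3 * 2 ^ s)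
  have hN3 : 1 ≤ N ^ 3 := Nat.one_le_pow _ _ hN0
  have hblk : ∀ s ∈ range S, N * 2 ^ s < r ∧ N * q' s < r ∧ 13 * N * ((N * 2 ^ s) * (N * q' s)) ≤ r ∧
      (r / (26 * N ^ 3) : ℝ) ≤ 2 ^ s * q' s := by
    intro s hs
    rw [mem_range] at hs
    have h2s : 2 ^ s ≤ 2 ^ S := Nat.pow_le_pow_right (by norm_num) hs.le
    have h2s1 : 1 ≤ 2 ^ s := Nat.one_le_two_pow
    have hdiv : 13 * N ^ 3 * 2 ^ s * q' s ≤ r := Nat.mul_div_le r _
    have hNN : N ≤ N ^ 3 := Nat.le_self_pow (by norm_num) N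
    refine ⟨?_, ?_, ?_, ?_⟩
    · calc N * 2 ^ s ≤ N ^ 3 * 2 ^ S := Nat.mul_le_mul hNN h2s
        _ < 26 * N ^ 3 * 2 ^ S := by
          have : 0 < N ^ 3 * 2 ^ S := by positivity
          nlinarith
        _ ≤ r := hr
    · by_cases hq : q' s = 0
      · rw [hq, mul_zero]; exact hr0
      · have hqpos : 0 < q' s := Nat.pos_of_ne_zero hq
        calc N * q' s < 13 * N ^ 3 * 2 ^ s * q' s := by
              apply Nat.mul_lt_mul_of_pos_right _ hqpos
              calc N ≤ N ^ 3 * 2 ^ s := by nlinarith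
                _ < 13 * N ^ 3 * 2 ^ s := by
                  have : 0 < N ^ 3 * 2 ^ s := by positivity
                  nlinarith
          _ ≤ r := hdiv
    · calc 13 * N * ((N * 2 ^ s) * (N * q' s)) = 13 * N ^ 3 * 2 ^ s * q' s := by ring
        _ ≤ r := hdiv
    · have h3 : r < 13 * N ^ 3 * 2 ^ s * (q' s + 1) := Nat.lt_mul_div_succ r (by positivity)
      have h4 : (r : ℝ) < 13 * N ^ 3 * 2 ^ s * (q' s + 1) := by exact_mod_cast h3
      have h5 : (26 : ℝ) * N ^ 3 * 2 ^ s ≤ r := by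
        have : 26 * N ^ 3 * 2 ^ s ≤ r := le_trans (Nat.mul_le_mul_left _ h2s) hr
        exact_mod_cast this
      rw [div_le_iff₀ (by positivity)]
      nlinarith
  have hdisj : ∀ s ∈ range S, ∀ t ∈ range S, s ≠ t → Disjoint (block N (2 ^ s)) (block N (2 ^ t)) := by
    have key : ∀ s t : ℕ, s < t → Disjoint (block N (2 ^ s)) (block N (2 ^ t)) := by
      intro s t hst
      rw [Finset.disjoint_left]
      intro a ha ha'
      have h1 := ((mem_block ha).2 ⟨1, hN⟩ (by simp)).2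
      have h2 := ((mem_block ha').2 ⟨1, hN⟩ (by simp)).1
      simp only at h1 h2
      have h3 : 2 ^ (s + 1) ≤ 2 ^ t := Nat.pow_le_pow_right (by norm_num) hst
      rw [pow_succ] at h3
      omega
    intro s _ t _ hst
    rcases lt_or_gt_of_ne hst with h | h
    · exact key s t h
    · exact (key t s h).symm
  have hf0 : ∀ a, 0 ≤ ∑ b ∈ labels N r, F r a b ^ 2 := fun a => Finset.sum_nonneg fun b _ => sq_nonneg _
  calc (S : ℝ) * ((r / (26 * N ^ 3) : ℝ) ^ (N - 1) * c ^ 2)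
      = ∑ _s ∈ range S, (r / (26 * N ^ 3) : ℝ) ^ (N - 1) * c ^ 2 := by
        rw [Finset.sum_const, card_range, nsmul_eq_mul]
    _ ≤ ∑ s ∈ range S, ∑ a ∈ block N (2 ^ s), ∑ b ∈ labels N r, F r a b ^ 2 := by
        refine Finset.sum_le_sum fun s hs => ?_
        obtain ⟨h1, h2, h3, h4⟩ := hblk s hs
        have h5 : ∀ a ∈ block N (2 ^ s), ((q' s : ℝ) ^ (N - 1)) * c ^ 2 ≤ ∑ b ∈ labels N r, F r a b ^ 2 := by
          intro a ha
          calc ((q' s : ℝ) ^ (N - 1)) * c ^ 2 = ∑ _b ∈ block N (q' s), c ^ 2 := by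
                rw [Finset.sum_const, block_card N _ hN0, nsmul_eq_mul]; push_cast; rfl
            _ ≤ ∑ b ∈ block N (q' s), F r a b ^ 2 := by
                refine Finset.sum_le_sum fun b hb => ?_
                exact pow_le_pow_left₀ hc0 (F_ge hN0 hr0 (block_subset h1 ha) (block_subset h2 hb)
                  (N * 2 ^ s) (N * q' s) (block_le ha) (block_le hb) h3) 2
            _ ≤ ∑ b ∈ labels N r, F r a b ^ 2 :=
                Finset.sum_le_sum_of_subset_of_nonneg (block_subset h2) fun b _ _ => sq_nonneg _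
        calc (r / (26 * N ^ 3) : ℝ) ^ (N - 1) * c ^ 2 ≤ ((2 : ℝ) ^ s * q' s) ^ (N - 1) * c ^ 2 :=
              mul_le_mul_of_nonneg_right (pow_le_pow_left₀ (by positivity) h4 _) (by positivity)
          _ = ∑ _a ∈ block N (2 ^ s), ((q' s : ℝ) ^ (N - 1)) * c ^ 2 := by
              rw [Finset.sum_const, block_card N _ hN0, nsmul_eq_mul, mul_pow]; push_cast; ring
          _ ≤ _ := Finset.sum_le_sum h5
    _ = ∑ a ∈ (range S).biUnion (fun s => block N (2 ^ s)), ∑ b ∈ labels N r, F r a b ^ 2 := by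
        rw [Finset.sum_biUnion]
        intro s hs t ht hst
        exact hdisj s hs t ht hst
    _ ≤ ∑ a ∈ labels N r, ∑ b ∈ labels N r, F r a b ^ 2 := by
        refine Finset.sum_le_sum_of_subset_of_nonneg ?_ fun a _ _ => hf0 a
        intro a ha
        obtain ⟨s, hs, ha⟩ := mem_biUnion.mp ha
        exact block_subset (hblk s hs).1 ha

end W719AEC
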