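import Mathlib
import Pool.Agent.W719.AEC.Est

/-!
# Upper bound
-/

set_option autoImplicit false

open Finset

namespace W719AEC

/-- ∑_{0<t<r} 1 / |w^t - 1|. -/
noncomputable def hs (r : ℕ) : ℝ := ∑ t ∈ Ioo 0 r, 1 / ‖w r ^ t - 1‖

theorem hs_le (r : ℕ) (hr : 1 ≤ r) : hs r ≤ r / 2 * (1 + Real.log r) := by
  have hr' : (1 : ℝ) ≤ r := by exact_mod_cast hr
  have hr0 : (0 : ℝ) < r := by linarith
  have hterm : ∀ t ∈ Ioo 0 r, 1 / ‖w r ^ t - 1‖ ≤ r / 4 * (1 / (t : ℝ) + 1 / ((r - t : ℕ) : ℝ)) := by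
    intro t ht
    rw [mem_Ioo] at ht
    have ht1 : (1 : ℝ) ≤ t := by exact_mod_cast ht.1
    have ht2 : (t : ℝ) < r := by exact_mod_cast ht.2
    have hc : ((r - t : ℕ) : ℝ) = r - t := by rw [Nat.cast_sub ht.2.le]
    rw [norm_w_sub_one, hc]
    have hd : (0 : ℝ) < r - t := by linarith
    have hpi := Real.pi_pos
    by_cases h : (t : ℝ) ≤ r / 2
    · have h2 := Real.mul_le_sin (x := Real.pi * t / r) (by positivity) (by
        rw [div_le_iff₀ hr0]; nlinarith)
      have h3 : 2 / Real.pi * (Real.pi * t / r) = 2 * t / r := by field_simp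
      rw [h3] at h2
      have h4 : 0 < 2 * (t : ℝ) / r := by positivity
      rw [abs_of_pos (by linarith)]
      calc 1 / (2 * Real.sin (Real.pi * t / r)) ≤ 1 / (2 * (2 * t / r)) :=
            one_div_le_one_div_of_le (by positivity) (by linarith)
        _ = r / 4 * (1 / t) := by field_simp; norm_num
        _ ≤ _ := by
            apply mul_le_mul_of_nonneg_left _ (by positivity)
            have : 0 < 1 / ((r : ℝ) - t) := by positivity
            linarith
    · push Not at h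
      have h2 := Real.mul_le_sin (x := Real.pi * (r - t) / r) (by positivity) (by
        rw [div_le_iff₀ hr0]; nlinarith)
      have h3 : 2 / Real.pi * (Real.pi * (r - t) / r) = 2 * (r - t) / r := by field_simp
      have h3' : Real.pi * ((r : ℝ) - t) / r = Real.pi - Real.pi * t / r := by field_simp
      rw [h3, h3', Real.sin_pi_sub] at h2
      have h4 : 0 < 2 * ((r : ℝ) - t) / r := by positivity
      rw [abs_of_pos (by linarith)]
      calc 1 / (2 * Real.sin (Real.pi * t / r)) ≤ 1 / (2 * (2 * (r - t) / r)) :=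
            one_div_le_one_div_of_le (by positivity) (by linarith)
        _ = r / 4 * (1 / (r - t)) := by field_simp; norm_num
        _ ≤ _ := by
            apply mul_le_mul_of_nonneg_left _ (by positivity)
            have : 0 < 1 / (t : ℝ) := by positivity
            linarith
  have hH : ∑ t ∈ Ioo 0 r, 1 / (t : ℝ) ≤ 1 + Real.log r := by
    have h1 := harmonic_le_one_add_log r
    have h2 : ((harmonic r : ℚ) : ℝ) = ∑ j ∈ range r, 1 / ((j : ℝ) + 1) := by
      unfold harmonic; push_cast; simp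
    rw [h2] at h1
    refine le_trans ?_ h1
    have h3 : ∑ t ∈ Ioo 0 r, 1 / (t : ℝ) ≤ ∑ t ∈ Ioc 0 r, 1 / (t : ℝ) :=
      Finset.sum_le_sum_of_subset_of_nonneg Ioo_subset_Ioc_self fun i _ _ => by positivity
    refine h3.trans (le_of_eq ?_)
    symm
    refine Finset.sum_nbij' (fun j => j + 1) (fun t => t - 1) ?_ ?_ ?_ ?_ ?_
    · intro j hj; rw [mem_range] at hj; rw [mem_Ioc]; omega
    · intro t ht; rw [mem_Ioc] at ht; rw [mem_range]; omega
    · intro j _; simp
    · intro t ht; rw [mem_Ioc] at ht; show t - 1 + 1 = t; omega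
    · intro j _; push_cast; rfl
  have hH' : ∑ t ∈ Ioo 0 r, 1 / ((r - t : ℕ) : ℝ) = ∑ t ∈ Ioo 0 r, 1 / (t : ℝ) := by
    refine Finset.sum_nbij' (fun t => r - t) (fun t => r - t) ?_ ?_ ?_ ?_ ?_
    · intro t ht; rw [mem_Ioo] at ht ⊢; omega
    · intro t ht; rw [mem_Ioo] at ht ⊢; omega
    · intro t ht; rw [mem_Ioo] at ht; show r - (r - t) = t; omega
    · intro t ht; rw [mem_Ioo] at ht; show r - (r - t) = t; omega
    · intro t _; rfl
  unfold hs
  calc ∑ t ∈ Ioo 0 r, 1 / ‖w r ^ t - 1‖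
      ≤ ∑ t ∈ Ioo 0 r, r / 4 * (1 / (t : ℝ) + 1 / ((r - t : ℕ) : ℝ)) := Finset.sum_le_sum hterm
    _ = r / 4 * (∑ t ∈ Ioo 0 r, 1 / (t : ℝ) + ∑ t ∈ Ioo 0 r, 1 / ((r - t : ℕ) : ℝ)) := by
        rw [← Finset.mul_sum, Finset.sum_add_distrib]
    _ ≤ r / 4 * ((1 + Real.log r) + (1 + Real.log r)) := by
        rw [hH']
        apply mul_le_mul_of_nonneg_left _ (by positivity)
        linarith
    _ = _ := by ring

theorem hs_nonneg (r : ℕ) : 0 ≤ hs r := Finset.sum_nonneg fun t _ => by positivity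

theorem norm_w_sub_eq (r m n : ℕ) (hr : 0 < r) (hm : m < r) :
    ‖w r ^ n - w r ^ m‖ = ‖w r ^ ((n + (r - m)) % r) - 1‖ := by
  have h1 : w r ^ n - w r ^ m = w r ^ m * (w r ^ ((n + (r - m)) % r) - 1) := by
    rw [w_pow_mod _ _ hr, mul_sub, mul_one, ← pow_add,
      show m + (n + (r - m)) = n + r by omega, pow_add, w_pow_r r hr, mul_one]
  rw [h1, norm_mul, w_norm, one_mul]

theorem sum_one_center {N r : ℕ} (hN : 0 < N) (hr : 0 < r) (i : Fin N) :
    ∑ a ∈ labels N r, ∏ j ∈ univ.erase i, 1 / ‖w r ^ a j - w r ^ a i‖ ≤ hs r ^ (N - 1) := by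
  classical
  let T : Fin N → Finset ℕ := fun j => if j = i then {0} else Ioo 0 r
  let G : Fin N → ℕ → ℝ := fun j t => if j = i then 1 else 1 / ‖w r ^ t - 1‖
  let ι : (Fin N → ℕ) → (Fin N → ℕ) := fun a j => (a j + (r - a i)) % r
  have hG : ∀ j t, 0 ≤ G j t := by
    intro j t
    simp only [G]
    split_ifs <;> positivity
  have hval : ∀ a ∈ labels N r, ∏ j ∈ univ.erase i, 1 / ‖w r ^ a j - w r ^ a i‖ = ∏ j, G j (ι a j) := by
    intro a ha
    rw [mem_labels] at ha
    rw [← Finset.mul_prod_erase univ _ (mem_univ i)]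
    have h1 : G i (ι a i) = 1 := by simp [G]
    rw [h1, one_mul]
    refine Finset.prod_congr rfl fun j hj => ?_
    have hji : j ≠ i := (mem_erase.mp hj).1
    simp only [G, ι, if_neg hji]
    rw [norm_w_sub_eq r (a i) (a j) hr (ha.1 i)]
  have hmaps : ∀ a ∈ labels N r, ι a ∈ Fintype.piFinset T := by
    intro a ha
    rw [mem_labels] at ha
    rw [Fintype.mem_piFinset]
    intro j
    simp only [T, ι]
    have hi := ha.1 i
    have hj := ha.1 j
    by_cases hji : j = i
    · subst hji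
      rw [if_pos rfl, mem_singleton, show a j + (r - a j) = r by omega, Nat.mod_self]
    · rw [if_neg hji, mem_Ioo]
      refine ⟨?_, Nat.mod_lt _ hr⟩
      rcases lt_or_gt_of_ne hji with h | h
      · have := ha.2.1 j i h
        rw [Nat.mod_eq_of_lt (by omega)]; omega
      · have := ha.2.1 i j h
        rw [show a j + (r - a i) = (a j - a i) + r by omega, Nat.add_mod_right,
          Nat.mod_eq_of_lt (by omega)]
        omega
  have hinj : Set.InjOn ι (labels N r) := by
    intro a ha a' ha' heq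
    have ha := mem_labels.mp (Finset.mem_coe.mp ha)
    have ha' := mem_labels.mp (Finset.mem_coe.mp ha')
    have h0 := congrFun heq ⟨0, hN⟩
    simp only [ι, ha.2.2 ⟨0, hN⟩ rfl, ha'.2.2 ⟨0, hN⟩ rfl, zero_add] at h0
    have hii : a i = a' i := by
      have e1 := ha.1 i
      have e2 := ha'.1 i
      rcases Nat.eq_zero_or_pos (a i) with h | h <;> rcases Nat.eq_zero_or_pos (a' i) with h' | h'
      · omega
      · rw [h, Nat.sub_zero, Nat.mod_self, Nat.mod_eq_of_lt (by omega)] at h0; omega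
      · rw [h', Nat.sub_zero, Nat.mod_self, Nat.mod_eq_of_lt (by omega)] at h0; omega
      · rw [Nat.mod_eq_of_lt (by omega), Nat.mod_eq_of_lt (by omega)] at h0; omega
    funext j
    have hj := congrFun heq j
    simp only [ι, hii] at hj
    exact Nat.ModEq.eq_of_lt_of_lt (Nat.ModEq.add_right_cancel' _ hj) (ha.1 j) (ha'.1 j)
  calc ∑ a ∈ labels N r, ∏ j ∈ univ.erase i, 1 / ‖w r ^ a j - w r ^ a i‖
      = ∑ a ∈ labels N r, ∏ j, G j (ι a j) := Finset.sum_congr rfl hval
    _ = ∑ x ∈ (labels N r).image ι, ∏ j, G j (x j) := by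
        rw [Finset.sum_image hinj]
    _ ≤ ∑ x ∈ Fintype.piFinset T, ∏ j, G j (x j) := by
        refine Finset.sum_le_sum_of_subset_of_nonneg ?_ fun x _ _ => Finset.prod_nonneg fun j _ => hG _ _
        intro x hx
        obtain ⟨a, ha, rfl⟩ := mem_image.mp hx
        exact hmaps a ha
    _ = ∏ j, ∑ t ∈ T j, G j t := (Finset.prod_univ_sum T G).symm
    _ = hs r ^ (N - 1) := by
        rw [← Finset.mul_prod_erase univ _ (mem_univ i)]
        have h1 : ∑ t ∈ T i, G i t = 1 := by simp [T, G]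
        rw [h1, one_mul]
        have h2 : ∀ j ∈ univ.erase i, ∑ t ∈ T j, G j t = hs r := by
          intro j hj
          have hji : j ≠ i := (mem_erase.mp hj).1
          simp only [T, G, if_neg hji]
          rfl
        rw [Finset.prod_congr rfl h2, Finset.prod_const, Finset.card_erase_of_mem (mem_univ i),
          Finset.card_univ, Fintype.card_fin]

/-- ∏_i ∏_{j ≠ i} g i j = (∏_{i<j} g i j)^2 for symmetric g. -/
theorem prod_erase_eq_sq {N : ℕ} (g : Fin N → Fin N → ℝ) (hg : ∀ i j, g i j = g j i) :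
    ∏ i, ∏ j ∈ univ.erase i, g i j = (∏ i : Fin N, ∏ j ∈ Ioi i, g i j) ^ 2 := by
  have h1 : ∀ i : Fin N, ∏ j ∈ univ.erase i, g i j = (∏ j ∈ Ioi i, g i j) * ∏ j ∈ Iio i, g i j := by
    intro i
    rw [← Finset.prod_union]
    · congr 1
      ext j
      simp only [mem_erase, mem_univ, and_true, mem_union, mem_Ioi, mem_Iio]
      constructor
      · intro h; exact (lt_or_gt_of_ne h).symm
      · rintro (h | h)
        · exact h.ne'
        · exact h.ne
    · rw [Finset.disjoint_left]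
      intro j hj hj'
      rw [mem_Ioi] at hj
      rw [mem_Iio] at hj'
      exact lt_asymm hj hj'
  rw [Finset.prod_congr rfl fun i _ => h1 i, Finset.prod_mul_distrib, sq]
  congr 1
  rw [Finset.prod_comm' (s := univ) (t := fun i => Iio i) (t' := univ) (s' := fun j => Ioi j)]
  · exact Finset.prod_congr rfl fun i _ => Finset.prod_congr rfl fun j _ => hg _ _
  · intro i j
    simp [mem_Iio, mem_Ioi]

theorem V_rpow_le {N r : ℕ} (hN : 0 < N) {a : Fin N → ℕ} (ha : a ∈ labels N r) :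
    (V r a) ^ (-(2 / (N : ℝ))) ≤ ∑ i : Fin N, 1 / (N : ℝ) * ∏ j ∈ univ.erase i, 1 / ‖w r ^ a j - w r ^ a i‖ := by
  have hN' : (0 : ℝ) < N := by exact_mod_cast hN
  have hV := V_pos ha
  have hg := prod_erase_eq_sq (fun i j => ‖w r ^ a j - w r ^ a i‖) (fun i j => norm_sub_rev _ _)
  rw [← V_eq] at hg
  have hag := Real.geom_mean_le_arith_mean_weighted univ (fun _ : Fin N => 1 / (N : ℝ))
    (fun i => ∏ j ∈ univ.erase i, 1 / ‖w r ^ a j - w r ^ a i‖) (fun i _ => by positivity)
    (by rw [Finset.sum_const, card_univ, Fintype.card_fin, nsmul_eq_mul]; field_simp)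
    (fun i _ => Finset.prod_nonneg fun j _ => by positivity)
  refine le_trans (le_of_eq ?_) hag
  rw [Real.finsetProd_rpow _ _ (fun i _ => Finset.prod_nonneg fun j _ => by positivity)]
  have h1 : ∏ i, ∏ j ∈ univ.erase i, 1 / ‖w r ^ a j - w r ^ a i‖ = (V r a ^ 2)⁻¹ := by
    rw [← hg, ← Finset.prod_inv_distrib]
    refine Finset.prod_congr rfl fun i _ => ?_
    rw [← Finset.prod_inv_distrib]
    exact Finset.prod_congr rfl fun j _ => by rw [one_div]
  rw [h1, Real.inv_rpow (by positivity), ← Real.rpow_natCast, ← Real.rpow_mul hV.le, ← Real.rpow_neg hV.le]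
  congr 1
  push_cast
  ring

theorem sum_V_rpow_le {N r : ℕ} (hN : 0 < N) (hr : 0 < r) :
    ∑ a ∈ labels N r, (V r a) ^ (-(2 / (N : ℝ))) ≤ hs r ^ (N - 1) := by
  have hN' : (0 : ℝ) < N := by exact_mod_cast hN
  calc ∑ a ∈ labels N r, (V r a) ^ (-(2 / (N : ℝ)))
      ≤ ∑ a ∈ labels N r, ∑ i : Fin N, 1 / (N : ℝ) * ∏ j ∈ univ.erase i, 1 / ‖w r ^ a j - w r ^ a i‖ :=
        Finset.sum_le_sum fun a ha => V_rpow_le hN ha
    _ = ∑ i : Fin N, 1 / (N : ℝ) * ∑ a ∈ labels N r, ∏ j ∈ univ.erase i, 1 / ‖w r ^ a j - w r ^ a i‖ := by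
        rw [Finset.sum_comm]
        exact Finset.sum_congr rfl fun i _ => by rw [Finset.mul_sum]
    _ ≤ ∑ i : Fin N, 1 / (N : ℝ) * hs r ^ (N - 1) :=
        Finset.sum_le_sum fun i _ => mul_le_mul_of_nonneg_left (sum_one_center hN hr i) (by positivity)
    _ = hs r ^ (N - 1) := by
        rw [Finset.sum_const, card_univ, Fintype.card_fin, nsmul_eq_mul]
        field_simp

end W719AEC
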