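import Mathlib
import Pool.Agent.W719.AEC.Upper
import Pool.Agent.W719.AEC.Lower
import Pool.Agent.W719.AEC.NoExp

/-!
# Growth of the SU(N) invariants of the graph manifold `doubleEdge`
-/

set_option autoImplicit false

open Finset Filter Topology

namespace W719AEC

theorem sum_piFinset_two {α : Type*} (s : Finset α) (f : α → α → ℂ) :
    ∑ x ∈ Fintype.piFinset (fun _ : Fin 2 => s), f (x 0) (x 1) = ∑ a ∈ s, ∑ b ∈ s, f a b := by
  rw [← Finset.sum_product']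
  refine Finset.sum_nbij' (fun x => (x 0, x 1)) (fun p => ![p.1, p.2]) ?_ ?_ ?_ ?_ ?_
  · intro x hx
    rw [Fintype.mem_piFinset] at hx
    rw [mem_product]
    exact ⟨hx 0, hx 1⟩
  · intro p hp
    rw [mem_product] at hp
    rw [Fintype.mem_piFinset]
    intro i
    fin_cases i
    · exact hp.1
    · exact hp.2
  · intro x _
    funext i
    fin_cases i <;> rfl
  · intro p _
    rfl
  · intro x _
    rfl

theorem deg_zero : doubleEdge.degree 0 = 2 := by decide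
theorem deg_one : doubleEdge.degree 1 = 2 := by decide

theorem Z_eq (N r : ℕ) (hN : 0 < N) (hr : 0 < r) :
    doubleEdge.Z N r =
      ((N * (r : ℝ) ^ (N - 1) * ∑ a ∈ labels N r, ∑ b ∈ labels N r, F r a b ^ 2 : ℝ) : ℂ) := by
  have h1 : doubleEdge.Z N r = ∑ x ∈ Fintype.piFinset (fun _ : Fin 2 => labels N r),
      (fun a b : Fin N → ℕ => Smat N r (triv N) a ^ (-2 : ℤ) * Smat N r (triv N) b ^ (-2 : ℤ) *
        (Smat N r a b * (starRingEnd ℂ) (Smat N r a b))) (x 0) (x 1) := by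
    unfold PlumbingGraph.Z
    refine Finset.sum_congr rfl fun x _ => ?_
    rw [Fin.prod_univ_two, Fin.prod_univ_two, deg_zero, deg_one]
    have e0 : doubleEdge.euler 0 = 0 := rfl
    have e1 : doubleEdge.euler 1 = 0 := rfl
    have g0 : doubleEdge.genus 0 = 1 := rfl
    have g1 : doubleEdge.genus 1 = 1 := rfl
    have s0 : doubleEdge.src 0 = 0 := rfl
    have s1 : doubleEdge.src 1 = 0 := rfl
    have t0 : doubleEdge.tgt 0 = 1 := rfl
    have t1 : doubleEdge.tgt 1 = 1 := rfl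
    have p0 : doubleEdge.positive 0 = true := rfl
    have p1 : doubleEdge.positive 1 = false := rfl
    rw [e0, e1, g0, g1, s0, s1, t0, t1, p0, p1]
    norm_num
  have h2 := sum_piFinset_two (labels N r) (fun a b : Fin N → ℕ => Smat N r (triv N) a ^ (-2 : ℤ) *
    Smat N r (triv N) b ^ (-2 : ℤ) * (Smat N r a b * (starRingEnd ℂ) (Smat N r a b)))
  refine (h1.trans h2).trans ?_
  rw [Finset.mul_sum, Complex.ofReal_sum]
  refine Finset.sum_congr rfl fun a ha => ?_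
  rw [Finset.mul_sum, Complex.ofReal_sum]
  refine Finset.sum_congr rfl fun b hb => ?_
  rw [Smat_triv_eq hN ha, Smat_triv_eq hN hb, Complex.mul_conj, Complex.normSq_eq_norm_sq, Smat_norm]
  have hk := kap_pos N r hN hr
  have hk2 := kap_sq N r
  have hVa := V_pos ha
  have hVb := V_pos hb
  have hr' : (0 : ℝ) < r := by exact_mod_cast hr
  have hN' : (0 : ℝ) < N := by exact_mod_cast hN
  rw [show ((kap N r * V r a : ℝ) : ℂ) ^ (-2 : ℤ) * ((kap N r * V r b : ℝ) : ℂ) ^ (-2 : ℤ) *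
      (((kap N r * ‖alt b fun i => w r ^ a i‖) ^ 2 : ℝ) : ℂ) =
      (((kap N r * V r a) ^ (-2 : ℤ) * (kap N r * V r b) ^ (-2 : ℤ) *
      (kap N r * ‖alt b fun i => w r ^ a i‖) ^ 2 : ℝ) : ℂ) by push_cast; rfl]
  congr 1
  unfold F
  rw [zpow_neg, zpow_neg]
  have h5 : ∀ x : ℝ, x ^ (2 : ℤ) = x ^ 2 := fun x => by norm_cast
  rw [h5, h5]
  have h3 : (kap N r) ^ 2 * (N * (r : ℝ) ^ (N - 1)) = 1 := by
    rw [hk2]; field_simp
  have h4 : ((kap N r * V r a) ^ 2)⁻¹ * ((kap N r * V r b) ^ 2)⁻¹ *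
      (kap N r * ‖alt b fun i => w r ^ a i‖) ^ 2 =
      ((kap N r) ^ 2)⁻¹ * (‖alt b fun i => w r ^ a i‖ / (V r a * V r b)) ^ 2 := by
    field_simp
  rw [h4]
  congr 1
  rw [inv_eq_one_div, div_eq_iff (by positivity)]
  linarith

/-- The upper bound for the sum of squares. -/
theorem sum_F_le {N r : ℕ} (hN : 2 ≤ N) (hr : 1 ≤ r) :
    ∑ a ∈ labels N r, ∑ b ∈ labels N r, F r a b ^ 2 ≤
      ((N / 4 : ℝ) ^ (N - 1) ^ 2 * (Nat.factorial N : ℝ) ^ (2 / (N : ℝ)) * (1 / 2) ^ (2 * (N - 1))) *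
        ((r : ℝ) ^ ((N - 1) ^ 2 + 2 * (N - 1)) * (1 + Real.log r) ^ (2 * (N - 1))) := by
  have hN0 : 0 < N := by omega
  have hN' : (2 : ℝ) ≤ N := by exact_mod_cast hN
  have hr' : (1 : ℝ) ≤ r := by exact_mod_cast hr
  have hr0 : 0 < r := by omega
  set M : ℝ := (N * r / 4 : ℝ) ^ (N * (N - 1) / 2) with hM
  have hM0 : 0 ≤ M := by positivity
  have hlog : 0 ≤ Real.log r := Real.log_nonneg hr'
  set p : ℝ := 2 / (N : ℝ) with hp
  have hp0 : 0 < p := by positivity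
  have hp1 : p ≤ 1 := by rw [hp, div_le_one (by linarith)]; exact hN'
  have hf : (0 : ℝ) ≤ (Nat.factorial N : ℝ) := Nat.cast_nonneg _
  have hterm : ∀ a ∈ labels N r, ∀ b ∈ labels N r, F r a b ^ 2 ≤
      M ^ (2 - p) * (Nat.factorial N : ℝ) ^ p * ((V r a) ^ (-p) * (V r b) ^ (-p)) := by
    intro a ha b hb
    have h0 := F_nonneg r a b
    have h1 := F_le hN0 hr0 ha hb
    have h2 := F_le' ha hb
    have hVa := V_pos ha
    have hVb := V_pos hb
    have h3 : F r a b ^ 2 = F r a b ^ (2 - p) * F r a b ^ p := by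
      rw [← Real.rpow_add_of_nonneg h0 (by linarith) hp0.le, ← Real.rpow_natCast]
      congr 1
      push_cast
      ring
    have h4 : F r a b ^ (2 - p) ≤ M ^ (2 - p) := Real.rpow_le_rpow h0 h1 (by linarith)
    have h5 : F r a b ^ p ≤ ((Nat.factorial N : ℝ) / (V r a * V r b)) ^ p :=
      Real.rpow_le_rpow h0 h2 hp0.le
    have h6 : ((Nat.factorial N : ℝ) / (V r a * V r b)) ^ p =
        (Nat.factorial N : ℝ) ^ p * ((V r a) ^ (-p) * (V r b) ^ (-p)) := by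
      rw [Real.div_rpow hf (by positivity), Real.mul_rpow hVa.le hVb.le, Real.rpow_neg hVa.le,
        Real.rpow_neg hVb.le, div_eq_mul_inv, mul_inv]
    rw [h3]
    calc F r a b ^ (2 - p) * F r a b ^ p ≤ M ^ (2 - p) *
          ((Nat.factorial N : ℝ) ^ p * ((V r a) ^ (-p) * (V r b) ^ (-p))) :=
          mul_le_mul h4 (h6 ▸ h5) (Real.rpow_nonneg h0 _) (Real.rpow_nonneg hM0 _)
      _ = _ := by ring
  have hsum := sum_V_rpow_le hN0 hr0 (N := N) (r := r)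
  have hhs := hs_le r hr
  have hhs0 := hs_nonneg r
  have hS0 : 0 ≤ ∑ a ∈ labels N r, (V r a) ^ (-p) :=
    Finset.sum_nonneg fun a ha => Real.rpow_nonneg (V_pos ha).le _
  have hMp : M ^ (2 - p) = (N * r / 4 : ℝ) ^ (N - 1) ^ 2 := by
    rw [hM, ← Real.rpow_natCast, ← Real.rpow_mul (by positivity), ← Real.rpow_natCast _ ((N - 1) ^ 2)]
    congr 1
    have h1 : (((N * (N - 1) / 2 : ℕ) : ℝ)) = N * (N - 1) / 2 := by
      have h2 : 2 ∣ N * (N - 1) := (Nat.even_mul_pred_self N).two_dvd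
      rw [Nat.cast_div h2 (by norm_num), Nat.cast_mul, Nat.cast_sub (by omega)]
      norm_num
    rw [h1, hp, Nat.cast_pow, Nat.cast_sub (by omega)]
    push_cast
    field_simp
  calc ∑ a ∈ labels N r, ∑ b ∈ labels N r, F r a b ^ 2
      ≤ ∑ a ∈ labels N r, ∑ b ∈ labels N r,
        M ^ (2 - p) * (Nat.factorial N : ℝ) ^ p * ((V r a) ^ (-p) * (V r b) ^ (-p)) :=
        Finset.sum_le_sum fun a ha => Finset.sum_le_sum fun b hb => hterm a ha b hb
    _ = M ^ (2 - p) * (Nat.factorial N : ℝ) ^ p * (∑ a ∈ labels N r, (V r a) ^ (-p)) ^ 2 := by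
        rw [sq, Finset.sum_mul_sum, Finset.mul_sum]
        refine Finset.sum_congr rfl fun a _ => ?_
        rw [Finset.mul_sum]
    _ ≤ M ^ (2 - p) * (Nat.factorial N : ℝ) ^ p * ((r / 2 * (1 + Real.log r)) ^ (N - 1)) ^ 2 := by
        refine mul_le_mul_of_nonneg_left (pow_le_pow_left₀ hS0 ?_ 2) ?_
        · exact hsum.trans (pow_le_pow_left₀ hhs0 hhs _)
        · exact mul_nonneg (Real.rpow_nonneg hM0 _) (Real.rpow_nonneg hf _)
    _ = _ := by
        rw [hMp, ← pow_mul, mul_comm (N - 1) 2, mul_pow (r / 2 : ℝ), pow_add,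
          show (N * r / 4 : ℝ) = N / 4 * r by ring, mul_pow (N / 4 : ℝ),
          show (r / 2 : ℝ) = 1 / 2 * r by ring, mul_pow (1 / 2 : ℝ)]
        ring

/-- |Z| ≤ C r^(N^2 + N - 2) (1 + log r)^(2 (N - 1)). -/
theorem Z_upper (N : ℕ) (hN : 2 ≤ N) : ∃ C : ℝ, ∀ r : ℕ, 1 ≤ r →
    ‖doubleEdge.Z N r‖ ≤ C * ((r : ℝ) ^ ((N ^ 2 + N - 2 : ℕ) : ℝ) * (1 + Real.log r) ^ (2 * (N - 1))) := by
  refine ⟨N * ((N / 4 : ℝ) ^ (N - 1) ^ 2 * (Nat.factorial N : ℝ) ^ (2 / (N : ℝ)) *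
    (1 / 2) ^ (2 * (N - 1))), fun r hr => ?_⟩
  have hr' : (1 : ℝ) ≤ r := by exact_mod_cast hr
  rw [Z_eq N r (by omega) (by omega), Complex.norm_real, Real.norm_eq_abs, abs_of_nonneg (by
    refine mul_nonneg (by positivity) (Finset.sum_nonneg fun a _ => Finset.sum_nonneg fun b _ => sq_nonneg _))]
  have h := sum_F_le hN hr
  have h2 : (r : ℝ) ^ ((N ^ 2 + N - 2 : ℕ) : ℝ) = (r : ℝ) ^ (N - 1) * (r : ℝ) ^ ((N - 1) ^ 2 + 2 * (N - 1)) := by
    rw [Real.rpow_natCast, ← pow_add]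
    congr 1
    obtain ⟨n, rfl⟩ : ∃ n, N = n + 1 := ⟨N - 1, by omega⟩
    simp only [Nat.add_sub_cancel]
    have : (n + 1) ^ 2 + (n + 1) = n + (n ^ 2 + 2 * n) + 2 := by ring
    omega
  rw [h2]
  calc (N : ℝ) * (r : ℝ) ^ (N - 1) * ∑ a ∈ labels N r, ∑ b ∈ labels N r, F r a b ^ 2
      ≤ (N : ℝ) * (r : ℝ) ^ (N - 1) * (((N / 4 : ℝ) ^ (N - 1) ^ 2 *
        (Nat.factorial N : ℝ) ^ (2 / (N : ℝ)) * (1 / 2) ^ (2 * (N - 1))) *
        ((r : ℝ) ^ ((N - 1) ^ 2 + 2 * (N - 1)) * (1 + Real.log r) ^ (2 * (N - 1)))) :=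
        mul_le_mul_of_nonneg_left h (by positivity)
    _ = _ := by ring

/-- |Z| / r^(N^2 + N - 2) → ∞. -/
theorem Z_lower (N : ℕ) (hN : 2 ≤ N) :
    Tendsto (fun r : ℕ => ‖doubleEdge.Z N r‖ / (r : ℝ) ^ ((N ^ 2 + N - 2 : ℕ) : ℝ)) atTop atTop := by
  have hN' : (2 : ℝ) ≤ N := by exact_mod_cast hN
  have hpi := Real.pi_pos
  set c : ℝ := N * ((1 / (26 * N ^ 3) : ℝ) ^ (N - 1) *
    (1 / 2 * (1 / (2 * Real.pi * N) : ℝ) ^ (N * (N - 1) / 2)) ^ 2) with hc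
  have hc0 : 0 < c := by positivity
  rw [tendsto_atTop]
  intro K
  obtain ⟨S, hS⟩ := exists_nat_ge (K / c)
  filter_upwards [eventually_ge_atTop (26 * N ^ 3 * 2 ^ S)] with r hr
  have hr1 : 1 ≤ r := by
    have : 0 < 26 * N ^ 3 * 2 ^ S := by positivity
    omega
  have hr' : (0 : ℝ) < r := by exact_mod_cast hr1
  have h := sum_F_ge hN S r hr
  rw [Z_eq N r (by omega) (by omega), Complex.norm_real, Real.norm_eq_abs, abs_of_nonneg (by
    refine mul_nonneg (by positivity) (Finset.sum_nonneg fun a _ => Finset.sum_nonneg fun b _ => sq_nonneg _)),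
    le_div_iff₀ (by positivity)]
  have h2 : (r : ℝ) ^ ((N ^ 2 + N - 2 : ℕ) : ℝ) =
      (r : ℝ) ^ (N - 1) * ((r : ℝ) ^ (N - 1) * ((r : ℝ) ^ (N * (N - 1) / 2)) ^ 2) := by
    rw [Real.rpow_natCast, ← pow_mul, ← pow_add, ← pow_add]
    congr 1
    have h3 : N * (N - 1) / 2 * 2 = N * (N - 1) :=
      Nat.div_mul_cancel (Nat.even_mul_pred_self N).two_dvd
    rw [h3]
    obtain ⟨n, rfl⟩ : ∃ n, N = n + 1 := ⟨N - 1, by omega⟩
    simp only [Nat.add_sub_cancel]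
    have : (n + 1) ^ 2 + (n + 1) = n + (n + (n + 1) * n) + 2 := by ring
    omega
  rw [h2]
  have h4 : K ≤ S * c := by
    rw [div_le_iff₀ hc0] at hS
    exact hS
  calc K * ((r : ℝ) ^ (N - 1) * ((r : ℝ) ^ (N - 1) * ((r : ℝ) ^ (N * (N - 1) / 2)) ^ 2))
      ≤ (S * c) * ((r : ℝ) ^ (N - 1) * ((r : ℝ) ^ (N - 1) * ((r : ℝ) ^ (N * (N - 1) / 2)) ^ 2)) :=
        mul_le_mul_of_nonneg_right h4 (by positivity)
    _ = N * (r : ℝ) ^ (N - 1) * (S * ((r / (26 * N ^ 3) : ℝ) ^ (N - 1) *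
          (1 / 2 * (r / (2 * Real.pi * N) : ℝ) ^ (N * (N - 1) / 2)) ^ 2)) := by
        rw [hc, show (r / (26 * N ^ 3) : ℝ) = 1 / (26 * N ^ 3) * r by ring,
          show (r / (2 * Real.pi * N) : ℝ) = 1 / (2 * Real.pi * N) * r by ring, mul_pow _ (r : ℝ),
          mul_pow _ (r : ℝ)]
        ring
    _ ≤ _ := mul_le_mul_of_nonneg_left h (by positivity)

theorem main (N : ℕ) (hN : 2 ≤ N) (ω : ℕ → ℂ) (hω : ∀ k, ‖ω k‖ = 1) :
    ¬ H524R3.HasExpansion N (fun k => ω k * doubleEdge.Z N (k + N)) := by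
  obtain ⟨C, hC⟩ := Z_upper N hN
  have h := not_hasExpansion N ((N ^ 2 + N - 2 : ℕ) : ℝ)
    (fun n => ω (n - N) * doubleEdge.Z N n) C (2 * (N - 1)) ?_ ?_
  · simpa using h
  · filter_upwards [eventually_ge_atTop 1] with n hn
    rw [norm_mul, hω, one_mul]
    exact hC n hn
  · refine (Z_lower N hN).congr fun n => ?_
    rw [norm_mul, hω, one_mul]

end W719AEC
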